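import Pool.Agent.H770.GS.TA

/-!
# Project TA (helper770): the statement `S_D`, by helper187
-/

set_option autoImplicit false

open MeasureTheory Set intervalIntegral

namespace Pool.Agent.H187.GSD

open Pool.Agent.H770.GS

/-! ### The elementary inequality -/

theorem hasDerivAt_exp_neg (z : ℝ) : HasDerivAt (fun z : ℝ => Real.exp (-z)) (-Real.exp (-z)) z := by
  have h := (hasDerivAt_neg z).exp
  refine h.congr_deriv ?_
  ring

theorem kk_nonneg {z : ℝ} (hz : 0 ≤ z) :
    0 ≤ Real.exp z * (z - 1) + Real.exp (-z) * (z + 1) := by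
  have hd : ∀ x, HasDerivAt (fun z : ℝ => Real.exp z * (z - 1) + Real.exp (-z) * (z + 1))
      (x * (Real.exp x - Real.exp (-x))) x := by
    intro x
    have h1 := (Real.hasDerivAt_exp x).mul ((hasDerivAt_id x).sub_const 1)
    have h2 := (hasDerivAt_exp_neg x).mul ((hasDerivAt_id x).add_const 1)
    refine (h1.add h2).congr_deriv ?_
    simp only [id]
    ring
  have hmono : MonotoneOn (fun z : ℝ => Real.exp z * (z - 1) + Real.exp (-z) * (z + 1)) (Ici 0) := by
    refine monotoneOn_of_deriv_nonneg (convex_Ici 0) ?_ ?_ ?_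
    · exact fun x _ => (hd x).continuousAt.continuousWithinAt
    · exact fun x _ => (hd x).differentiableAt.differentiableWithinAt
    · intro x hx
      rw [(hd x).deriv]
      have hx0 : 0 ≤ x := by
        rw [interior_Ici] at hx
        exact le_of_lt hx
      exact mul_nonneg hx0 (sub_nonneg.mpr (Real.exp_le_exp.mpr (by linarith)))
  have h := hmono (mem_Ici.2 le_rfl) (mem_Ici.2 hz) hz
  simp only [neg_zero, Real.exp_zero] at h
  norm_num at h
  linarith

theorem hg {z : ℝ} (hz : 0 ≤ z) :
    Real.exp (-z) * (3 + z ^ 2 + 3 * z) ≤ Real.exp z * (3 + z ^ 2 - 3 * z) := by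
  have hd : ∀ x, HasDerivAt (fun z : ℝ => Real.exp z * (3 + z ^ 2 - 3 * z) -
      Real.exp (-z) * (3 + z ^ 2 + 3 * z))
      (x * (Real.exp x * (x - 1) + Real.exp (-x) * (x + 1))) x := by
    intro x
    have hp : HasDerivAt (fun z : ℝ => 3 + z ^ 2 - 3 * z) (2 * x - 3) x := by
      refine (((hasDerivAt_pow 2 x).const_add 3).sub ((hasDerivAt_id x).const_mul 3)).congr_deriv ?_
      norm_num
    have hq : HasDerivAt (fun z : ℝ => 3 + z ^ 2 + 3 * z) (2 * x + 3) x := by
      refine (((hasDerivAt_pow 2 x).const_add 3).add ((hasDerivAt_id x).const_mul 3)).congr_deriv ?_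
      norm_num
    have h1 := (Real.hasDerivAt_exp x).mul hp
    have h2 := (hasDerivAt_exp_neg x).mul hq
    refine (h1.sub h2).congr_deriv ?_
    ring
  have hmono : MonotoneOn (fun z : ℝ => Real.exp z * (3 + z ^ 2 - 3 * z) -
      Real.exp (-z) * (3 + z ^ 2 + 3 * z)) (Ici 0) := by
    refine monotoneOn_of_deriv_nonneg (convex_Ici 0) ?_ ?_ ?_
    · exact fun x _ => (hd x).continuousAt.continuousWithinAt
    · exact fun x _ => (hd x).differentiableAt.differentiableWithinAt
    · intro x hx
      rw [(hd x).deriv]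
      have hx0 : 0 ≤ x := by
        rw [interior_Ici] at hx
        exact le_of_lt hx
      exact mul_nonneg hx0 (kk_nonneg hx0)
  have h := hmono (mem_Ici.2 le_rfl) (mem_Ici.2 hz) hz
  simp only [neg_zero, Real.exp_zero] at h
  norm_num at h
  linarith

/-- `β a ≥ 0` -/
theorem beta_nonneg {a v : ℝ} (ha : 0 ≤ a) (ha3 : a ^ 2 ≤ 3) (hv : 0 ≤ v) :
    0 ≤ W (a - v) * (1 + v ^ 2 - v * a) - W (a + v) * (1 + v ^ 2 + v * a) := by
  obtain ⟨z, hz⟩ : ∃ z, z = v * a := ⟨_, rfl⟩
  have hz0 : 0 ≤ z := by rw [hz]; exact mul_nonneg hv ha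
  have e1 : W (a - v) = Real.exp (-(a ^ 2 + v ^ 2) / 2) * Real.exp z := by
    unfold W
    rw [← Real.exp_add, hz]
    congr 1
    ring
  have e2 : W (a + v) = Real.exp (-(a ^ 2 + v ^ 2) / 2) * Real.exp (-z) := by
    unfold W
    rw [← Real.exp_add, hz]
    congr 1
    ring
  have hD : 0 < 3 + z ^ 2 - 3 * z := by nlinarith [sq_nonneg (2 * z - 3)]
  have hs : 0 < 1 + v ^ 2 - z := by
    rw [hz]
    nlinarith [sq_nonneg (v - a / 2)]
  have hz3 : z ^ 2 ≤ 3 * v ^ 2 := by
    rw [hz]
    nlinarith [sq_nonneg v]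
  have hcomp : (1 + v ^ 2 + z) * (3 + z ^ 2 - 3 * z) ≤ (1 + v ^ 2 - z) * (3 + z ^ 2 + 3 * z) := by
    have h : (1 + v ^ 2 - z) * (3 + z ^ 2 + 3 * z) - (1 + v ^ 2 + z) * (3 + z ^ 2 - 3 * z) =
        2 * z * (3 * v ^ 2 - z ^ 2) := by ring
    have h2 : 0 ≤ 2 * z * (3 * v ^ 2 - z ^ 2) := by
      apply mul_nonneg (by linarith)
      linarith
    linarith
  have hkey : Real.exp (-z) * (1 + v ^ 2 + z) ≤ Real.exp z * (1 + v ^ 2 - z) := by
    have h1 := mul_le_mul_of_nonneg_left (hg hz0) hs.le
    have h2 := mul_le_mul_of_nonneg_left hcomp (Real.exp_pos (-z)).le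
    have h3 : (Real.exp (-z) * (1 + v ^ 2 + z)) * (3 + z ^ 2 - 3 * z) ≤
        (Real.exp z * (1 + v ^ 2 - z)) * (3 + z ^ 2 - 3 * z) := by
      nlinarith
    exact le_of_mul_le_mul_right h3 hD
  have h4 : W (a - v) * (1 + v ^ 2 - v * a) - W (a + v) * (1 + v ^ 2 + v * a) =
      Real.exp (-(a ^ 2 + v ^ 2) / 2) * (Real.exp z * (1 + v ^ 2 - z) -
        Real.exp (-z) * (1 + v ^ 2 + z)) := by
    rw [e1, e2, ← hz]
    ring
  rw [h4]
  exact mul_nonneg (Real.exp_pos _).le (sub_nonneg.mpr hkey)

/-! ### Derivatives -/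

theorem n_deriv (r c a : ℝ) : HasDerivAt (fun a => nL r (c * a)) (c * nLd r (c * a)) a := by
  have h1 : HasDerivAt (fun a : ℝ => c * a) c a := by
    simpa using (hasDerivAt_id a).const_mul c
  have h2 := (nL_deriv r (c * a)).comp a h1
  refine h2.congr_deriv ?_
  unfold nLd
  ring

theorem n_cont (r c : ℝ) : Continuous (fun a => nL r (c * a)) :=
  (nL_cont r).comp (continuous_const.mul continuous_id)

theorem Mc_cont (r c : ℝ) : Continuous (Mc r c) := by
  unfold Mc nLd
  have h1 := nL_cont r
  have h2 := fL_cont r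
  fun_prop

theorem kap_deriv (r c : ℝ) {a : ℝ} (ha : a ≠ 0) :
    HasDerivAt (fun a => nL r (c * a) / a) (-(Mc r c a / a ^ 2)) a := by
  have h := (n_deriv r c a).div (hasDerivAt_id a) ha
  refine h.congr_deriv ?_
  unfold Mc
  simp only [id]
  field_simp
  ring

theorem Wsub_deriv (v a : ℝ) : HasDerivAt (fun a => W (a - v)) (-((a - v) * W (a - v))) a := by
  have h := (W_deriv (a - v)).comp a ((hasDerivAt_id a).sub_const v)
  refine h.congr_deriv ?_
  ring

theorem Wadd_deriv (v a : ℝ) : HasDerivAt (fun a => W (a + v)) (-((a + v) * W (a + v))) a := by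
  have h := (W_deriv (a + v)).comp a ((hasDerivAt_id a).add_const v)
  refine h.congr_deriv ?_
  ring

theorem W_symm (a v : ℝ) : W (v - a) = W (a - v) := by
  rw [← W_even (a - v)]
  congr 1
  ring

theorem NR_eq (r v : ℝ) : NR r v = fun a => W r - (1 - v * a) * W (a - v) := by
  funext a
  unfold NR
  rw [W_symm]

theorem NR_cont (r v : ℝ) : Continuous (NR r v) := by
  unfold NR
  have := W_cont
  fun_prop

theorem lin_deriv (v a : ℝ) : HasDerivAt (fun a : ℝ => v * a) v a := by
  simpa using (hasDerivAt_id a).const_mul v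

theorem NR_deriv (r v a : ℝ) :
    HasDerivAt (NR r v) (a * (W (a - v) * (1 + v ^ 2 - v * a))) a := by
  rw [NR_eq]
  have h := (((lin_deriv v a).const_sub 1).mul (Wsub_deriv v a)).const_sub (W r)
  refine h.congr_deriv ?_
  ring

theorem NL_deriv (v a : ℝ) :
    HasDerivAt (fun a => (v * a - 1) * W (a - v) + (v * a + 1) * W (a + v))
      (a * (W (a - v) * (1 + v ^ 2 - v * a) - W (a + v) * (1 + v ^ 2 + v * a))) a := by
  have h := (((lin_deriv v a).sub_const 1).mul (Wsub_deriv v a)).add
    (((lin_deriv v a).add_const 1).mul (Wadd_deriv v a))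
  refine h.congr_deriv ?_
  ring

theorem Wsub_cont (v : ℝ) : Continuous (fun a => W (a - v)) :=
  W_cont.comp (continuous_id.sub continuous_const)

theorem Wadd_cont (v : ℝ) : Continuous (fun a => W (a + v)) :=
  W_cont.comp (continuous_id.add continuous_const)

/-! ### The statement -/

theorem s_D : S_D := by
  intro r c v hr hr3 hc hc1 hv hvr
  have hrv : 0 < r - v := by linarith
  have hle : r - v ≤ r + v := by linarith
  -- continuity of the pieces
  have hn := n_cont r c
  have hWs := Wsub_cont v
  have hWa := Wadd_cont v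
  -- the coefficient `κ`
  obtain ⟨κm, hκm⟩ : ∃ κm, κm = nL r (c * (r - v)) / (r - v) := ⟨_, rfl⟩
  obtain ⟨κp, hκp⟩ : ∃ κp, κp = nL r (c * (r + v)) / (r + v) := ⟨_, rfl⟩
  -- right part
  have hright : (∫ a in (r - v)..(r + v), W (a - v) * (1 + v ^ 2 - v * a) * nL r (c * a)) =
      NR r v (r + v) * κp - NR r v (r - v) * κm +
        ∫ a in (r - v)..(r + v), NR r v a * (Mc r c a / a ^ 2) := by
    have hpos : ∀ a ∈ uIcc (r - v) (r + v), 0 < a := by
      intro a ha
      rw [uIcc_of_le hle] at ha
      exact lt_of_lt_of_le hrv ha.1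
    have hder : ∀ a ∈ uIcc (r - v) (r + v),
        HasDerivAt (fun a => NR r v a * (nL r (c * a) / a))
          (W (a - v) * (1 + v ^ 2 - v * a) * nL r (c * a) - NR r v a * (Mc r c a / a ^ 2)) a := by
      intro a ha
      have ha0 : a ≠ 0 := (hpos a ha).ne'
      have h := (NR_deriv r v a).mul (kap_deriv r c ha0)
      refine h.congr_deriv ?_
      field_simp
      ring
    have hc1' : ContinuousOn (fun a => W (a - v) * (1 + v ^ 2 - v * a) * nL r (c * a))
        (uIcc (r - v) (r + v)) := by
      apply Continuous.continuousOn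
      exact (hWs.mul (continuous_const.sub (continuous_const.mul continuous_id))).mul hn
    have hc2' : ContinuousOn (fun a => NR r v a * (Mc r c a / a ^ 2)) (uIcc (r - v) (r + v)) := by
      apply ContinuousOn.mul (NR_cont r v).continuousOn
      apply ContinuousOn.div (Mc_cont r c).continuousOn (continuous_pow 2).continuousOn
      intro a ha
      exact pow_ne_zero 2 (hpos a ha).ne'
    have hi1 : IntervalIntegrable (fun a => W (a - v) * (1 + v ^ 2 - v * a) * nL r (c * a))
      volume (r - v) (r + v) := hc1'.intervalIntegrable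
    have hi2 : IntervalIntegrable (fun a => NR r v a * (Mc r c a / a ^ 2))
      volume (r - v) (r + v) := hc2'.intervalIntegrable
    have h := intervalIntegral.integral_eq_sub_of_hasDerivAt hder (hi1.sub hi2)
    rw [intervalIntegral.integral_sub hi1 hi2] at h
    rw [hκm, hκp]
    linarith
  -- left part
  have hleft : κm * ((v * (r - v) - 1) * W (r - v - v) + (v * (r - v) + 1) * W (r - v + v)) ≤
      ∫ a in (0:ℝ)..(r - v), (W (a - v) * (1 + v ^ 2 - v * a) - W (a + v) * (1 + v ^ 2 + v * a)) *
        nL r (c * a) := by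
    have hcb : Continuous (fun a => W (a - v) * (1 + v ^ 2 - v * a) -
        W (a + v) * (1 + v ^ 2 + v * a)) :=
      (hWs.mul (continuous_const.sub (continuous_const.mul continuous_id))).sub
        (hWa.mul (continuous_const.add (continuous_const.mul continuous_id)))
    have hI : (∫ a in (0:ℝ)..(r - v), a * (W (a - v) * (1 + v ^ 2 - v * a) -
        W (a + v) * (1 + v ^ 2 + v * a))) =
        (v * (r - v) - 1) * W (r - v - v) + (v * (r - v) + 1) * W (r - v + v) := by
      have h := intervalIntegral.integral_eq_sub_of_hasDerivAt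
        (a := (0:ℝ)) (b := r - v) (fun a _ => NL_deriv v a)
        ((continuous_id.mul hcb).intervalIntegrable _ _)
      refine h.trans ?_
      have h0 : W (0 - v) = W (0 + v) := by
        rw [zero_sub, zero_add, W_even]
      rw [h0]
      ring
    rw [← hI, ← intervalIntegral.integral_const_mul]
    refine intervalIntegral.integral_mono_on hrv.le
      ((continuous_const.mul (continuous_id.mul hcb)).intervalIntegrable _ _)
      ((hcb.mul hn).intervalIntegrable _ _) ?_
    intro a ha
    have hβ : 0 ≤ W (a - v) * (1 + v ^ 2 - v * a) - W (a + v) * (1 + v ^ 2 + v * a) := by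
      apply beta_nonneg ha.1 _ hv.le
      have h1 : a ≤ r := by linarith [ha.2]
      nlinarith [ha.1]
    -- `κ` is nonincreasing
    have hκ : κm * a ≤ nL r (c * a) := by
      rcases eq_or_lt_of_le ha.1 with h0 | h0
      · rw [← h0, mul_zero]
        apply nL_nonneg
        · simp
        · simp only [mul_zero]
          linarith
      · have hanti : AntitoneOn (fun a => nL r (c * a) / a) (Ioc 0 (r - v)) := by
          refine antitoneOn_of_deriv_nonpos (convex_Ioc 0 (r - v)) ?_ ?_ ?_
          · exact fun x hx => (kap_deriv r c hx.1.ne').continuousAt.continuousWithinAt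
          · intro x hx
            rw [interior_Ioc] at hx
            exact (kap_deriv r c hx.1.ne').differentiableAt.differentiableWithinAt
          · intro x hx
            rw [interior_Ioc] at hx
            rw [(kap_deriv r c hx.1.ne').deriv]
            have hcx : 0 < c * x := mul_pos hc hx.1
            have hcx2 : c * x < 2 * r := by nlinarith [hx.1, hx.2]
            have h1 := nL_anti hcx hcx2
            have h2 : 0 ≤ Mc r c x := by
              unfold Mc nLd
              linarith
            have h3 : 0 ≤ Mc r c x / x ^ 2 := div_nonneg h2 (sq_nonneg x)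
            linarith
        have h1 := hanti (⟨h0, ha.2⟩ : a ∈ Ioc 0 (r - v)) (⟨hrv, le_rfl⟩ : r - v ∈ Ioc 0 (r - v))
          ha.2
        have h2 : κm ≤ nL r (c * a) / a := by rw [hκm]; exact h1
        have h3 := mul_le_mul_of_nonneg_right h2 h0.le
        rwa [div_mul_cancel₀ _ h0.ne'] at h3
    have h4 := mul_le_mul_of_nonneg_right hκ hβ
    calc κm * (a * (W (a - v) * (1 + v ^ 2 - v * a) - W (a + v) * (1 + v ^ 2 + v * a)))
        = κm * a * (W (a - v) * (1 + v ^ 2 - v * a) - W (a + v) * (1 + v ^ 2 + v * a)) := by ring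
      _ ≤ nL r (c * a) * (W (a - v) * (1 + v ^ 2 - v * a) - W (a + v) * (1 + v ^ 2 + v * a)) := h4
      _ = (W (a - v) * (1 + v ^ 2 - v * a) - W (a + v) * (1 + v ^ 2 + v * a)) *
          nL r (c * a) := by ring
  -- `Qf - v Qd`
  have hQ : Qf r c v - v * Qd r c v =
      (∫ a in (0:ℝ)..(r - v), (W (a - v) * (1 + v ^ 2 - v * a) - W (a + v) * (1 + v ^ 2 + v * a)) *
        nL r (c * a)) +
      (∫ a in (r - v)..(r + v), W (a - v) * (1 + v ^ 2 - v * a) * nL r (c * a)) -
      v * (W r * (nL r (c * (r + v)) + nL r (c * (r - v)))) := by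
    have i1 : ∀ x y : ℝ, IntervalIntegrable (fun a => W (a - v) * nL r (c * a)) volume x y :=
      fun x y => (hWs.mul hn).intervalIntegrable _ _
    have i2 : ∀ x y : ℝ, IntervalIntegrable (fun a => W (a + v) * nL r (c * a)) volume x y :=
      fun x y => (hWa.mul hn).intervalIntegrable _ _
    have i3 : ∀ x y : ℝ, IntervalIntegrable (fun a => (a - v) * W (a - v) * nL r (c * a))
        volume x y :=
      fun x y => (((continuous_id.sub continuous_const).mul hWs).mul hn).intervalIntegrable _ _
    have i4 : ∀ x y : ℝ, IntervalIntegrable (fun a => (a + v) * W (a + v) * nL r (c * a))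
        volume x y :=
      fun x y => (((continuous_id.add continuous_const).mul hWa).mul hn).intervalIntegrable _ _
    have i5 : ∀ x y : ℝ, IntervalIntegrable
        (fun a => W (a - v) * (1 + v ^ 2 - v * a) * nL r (c * a)) volume x y :=
      fun x y => ((hWs.mul (continuous_const.sub (continuous_const.mul continuous_id))).mul
        hn).intervalIntegrable _ _
    have i6 : ∀ x y : ℝ, IntervalIntegrable
        (fun a => W (a + v) * (1 + v ^ 2 + v * a) * nL r (c * a)) volume x y :=
      fun x y => ((hWa.mul (continuous_const.add (continuous_const.mul continuous_id))).mul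
        hn).intervalIntegrable _ _
    have e1 : (∫ a in (0:ℝ)..(r + v), W (a - v) * nL r (c * a)) -
        v * (∫ a in (0:ℝ)..(r + v), (a - v) * W (a - v) * nL r (c * a)) =
        ∫ a in (0:ℝ)..(r + v), W (a - v) * (1 + v ^ 2 - v * a) * nL r (c * a) := by
      rw [← intervalIntegral.integral_const_mul, ← intervalIntegral.integral_sub (i1 _ _)
        ((i3 _ _).const_mul v)]
      refine intervalIntegral.integral_congr (fun a _ => ?_)
      ring
    have e2 : (∫ a in (0:ℝ)..(r - v), W (a + v) * nL r (c * a)) +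
        v * (∫ a in (0:ℝ)..(r - v), (a + v) * W (a + v) * nL r (c * a)) =
        ∫ a in (0:ℝ)..(r - v), W (a + v) * (1 + v ^ 2 + v * a) * nL r (c * a) := by
      rw [← intervalIntegral.integral_const_mul, ← intervalIntegral.integral_add (i2 _ _)
        ((i4 _ _).const_mul v)]
      refine intervalIntegral.integral_congr (fun a _ => ?_)
      ring
    have e3 : (∫ a in (0:ℝ)..(r + v), W (a - v) * (1 + v ^ 2 - v * a) * nL r (c * a)) =
        (∫ a in (0:ℝ)..(r - v), W (a - v) * (1 + v ^ 2 - v * a) * nL r (c * a)) +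
        ∫ a in (r - v)..(r + v), W (a - v) * (1 + v ^ 2 - v * a) * nL r (c * a) :=
      (intervalIntegral.integral_add_adjacent_intervals (i5 _ _) (i5 _ _)).symm
    have e4 : (∫ a in (0:ℝ)..(r - v), (W (a - v) * (1 + v ^ 2 - v * a) -
        W (a + v) * (1 + v ^ 2 + v * a)) * nL r (c * a)) =
        (∫ a in (0:ℝ)..(r - v), W (a - v) * (1 + v ^ 2 - v * a) * nL r (c * a)) -
        ∫ a in (0:ℝ)..(r - v), W (a + v) * (1 + v ^ 2 + v * a) * nL r (c * a) := by
      rw [← intervalIntegral.integral_sub (i5 _ _) (i6 _ _)]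
      refine intervalIntegral.integral_congr (fun a _ => ?_)
      ring
    rw [e4]
    unfold Qf Qd
    linear_combination e1 - e2 + e3
  -- boundary terms
  have hb1 : NR r v (r + v) = v * (r + v) * W r := by
    unfold NR
    have h : W (v - (r + v)) = W r := by
      rw [show v - (r + v) = -r by ring, W_even]
    rw [h]
    ring
  have hb2 : (v * (r - v) - 1) * W (r - v - v) + (v * (r - v) + 1) * W (r - v + v) =
      NR r v (r - v) + v * (r - v) * W r := by
    unfold NR
    have h1 : W (v - (r - v)) = W (r - v - v) := W_symm (r - v) v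
    have h2 : r - v + v = r := by ring
    rw [h1, h2]
    ring
  have hn1 : nL r (c * (r + v)) = κp * (r + v) := by
    rw [hκp, div_mul_cancel₀]
    linarith
  have hn2 : nL r (c * (r - v)) = κm * (r - v) := by
    rw [hκm, div_mul_cancel₀]
    exact hrv.ne'
  rw [hQ, hright, hn1, hn2, hb1]
  rw [hb2] at hleft
  linarith

end Pool.Agent.H187.GSD
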