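import Pool.Agent.H867.FT.Stm

set_option autoImplicit false

/-!
# MP_7dd379_ag: F-finiteness of the local ring of an affine toric variety
-/

namespace Pool.Agent.H187.FT867FFI

open Pool.Agent.H867.FT

/-- The pairing with the rays. -/
def toN {d n : ℕ} (C : Cone d n) : C.S →+ (Fin n → ℕ) where
  toFun u := fun i => (C.v i ⬝ᵥ (u : Fin d → ℤ)).toNat
  map_zero' := by
    funext i
    simp
  map_add' a b := by
    funext i
    show (C.v i ⬝ᵥ ((a : Fin d → ℤ) + b)).toNat = _
    rw [dotProduct_add, Int.toNat_add (a.2 i) (b.2 i)]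
    rfl

theorem toN_cast {d n : ℕ} (C : Cone d n) (u : C.S) (i : Fin n) :
    ((toN C u i : ℕ) : ℤ) = C.v i ⬝ᵥ (u : Fin d → ℤ) :=
  Int.toNat_of_nonneg (u.2 i)

theorem toN_injective {d n : ℕ} (C : Cone d n) : Function.Injective (toN C) := by
  intro a b hab
  apply Subtype.ext
  rw [← sub_eq_zero]
  apply C.spans
  intro i
  rw [dotProduct_sub, ← toN_cast, ← toN_cast, hab, sub_self]

/-- Gordan's lemma. -/
theorem gordan {d n : ℕ} (C : Cone d n) : AddMonoid.FG C.S := by
  refine ⟨AddSubmonoid.FG.map_injective (toN C) (toN_injective C) ?_⟩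
  refine AddSubmonoid.fg_of_subtractive ?_
  rintro x ⟨a, -, rfl⟩ y ⟨b, -, hb⟩
  refine ⟨⟨(b : Fin d → ℤ) - a, fun i => ?_⟩, AddSubmonoid.mem_top _, ?_⟩
  · rw [dotProduct_sub, ← toN_cast, ← toN_cast, hb, Pi.add_apply]
    push_cast
    omega
  · funext i
    have h : C.v i ⬝ᵥ ((b : Fin d → ℤ) - a) = (y i : ℤ) := by
      rw [dotProduct_sub, ← toN_cast, ← toN_cast, hb, Pi.add_apply]
      push_cast
      omega
    show (C.v i ⬝ᵥ ((b : Fin d → ℤ) - a)).toNat = y i
    rw [h]
    rfl

/-- Frobenius is finite on algebras of finite type over an F-finite ring. -/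
theorem frob_finiteType (p : ℕ) [Fact p.Prime] (K A : Type) [CommRing K] [CommRing A]
    [Algebra K A] [CharP K p] [CharP A p] [hft : Algebra.FiniteType K A]
    (hK : (frobenius K p).Finite) : (frobenius A p).Finite := by
  refine RingHom.IsIntegral.to_finite ?_ ?_
  · intro a
    refine ⟨Polynomial.X ^ p - Polynomial.C a, Polynomial.monic_X_pow_sub_C _
      (Fact.out : p.Prime).ne_zero, ?_⟩
    simp [frobenius_def]
  · have h1 : ((algebraMap K A).comp (frobenius K p)).FiniteType :=
      (RingHom.finiteType_algebraMap.2 hft).comp hK.finiteType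
    have h2 : (algebraMap K A).comp (frobenius K p) = (frobenius A p).comp (algebraMap K A) := by
      ext x
      simp [frobenius_def]
    rw [h2] at h1
    exact h1.of_comp_finiteType

/-- Frobenius is finite on localizations of an F-finite ring. -/
theorem frob_localization (p : ℕ) [Fact p.Prime] (A B : Type) [CommRing A] [CommRing B]
    [Algebra A B] (M : Submonoid A) [IsLocalization M B] [CharP A p] [CharP B p]
    (hA : (frobenius A p).Finite) : (frobenius B p).Finite := by
  have hp : p ≠ 0 := (Fact.out : p.Prime).ne_zero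
  have hl : IsLocalization (M.map (frobenius A p)) B := by
    refine (isLocalization_iff _ _).2 ⟨?_, ?_, ?_⟩
    · rintro ⟨_, s, hs, rfl⟩
      show IsUnit (algebraMap A B (s ^ p))
      rw [map_pow]
      exact (IsLocalization.map_units B (⟨s, hs⟩ : M)).pow p
    · intro z
      obtain ⟨⟨a, s⟩, h⟩ := IsLocalization.surj M z
      refine ⟨⟨a * (s : A) ^ (p - 1), ⟨(s : A) ^ p, s, s.2, rfl⟩⟩, ?_⟩
      show z * algebraMap A B ((s : A) ^ p) = algebraMap A B (a * (s : A) ^ (p - 1))
      have e : (s : A) ^ p = s * (s : A) ^ (p - 1) := by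
        rw [← pow_succ', Nat.sub_add_cancel (Nat.one_le_iff_ne_zero.2 hp)]
      rw [e, map_mul, map_mul, ← mul_assoc, h]
    · rintro x y h
      obtain ⟨c, hc⟩ := IsLocalization.exists_of_eq (M := M) h
      refine ⟨⟨(c : A) ^ p, c, c.2, rfl⟩, ?_⟩
      show (c : A) ^ p * x = (c : A) ^ p * y
      have e : (c : A) ^ p = (c : A) ^ (p - 1) * c := by
        rw [← pow_succ, Nat.sub_add_cancel (Nat.one_le_iff_ne_zero.2 hp)]
      rw [e, mul_assoc, mul_assoc, hc]
  have h1 := RingHom.finite_localizationPreserves (frobenius A p) M B B hA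
  have h2 : IsLocalization.map (S := B) B (frobenius A p) (Submonoid.le_comap_map M)
      = frobenius B p := by
    refine IsLocalization.ringHom_ext M ?_
    rw [IsLocalization.map_comp]
    ext x
    simp [frobenius_def]
  rw [h2] at h1
  exact h1

theorem ffi : S_FFI := by
  intro p _ K _ _ d n C _ hK
  have := gordan C
  have : CharP (C.Ring K) p :=
    charP_of_injective_algebraMap (algebraMap K (C.Ring K)).injective p
  have h1 : (frobenius (C.Ring K) p).Finite := frob_finiteType p K (C.Ring K) hK
  exact frob_localization p (C.Ring K) (C.LocalRing K) (C.maxIdeal K).primeCompl h1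

end Pool.Agent.H187.FT867FFI
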