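import Pool.Agent.H465.CG.Stm3

/-!
# Project CG (helper465): HILB, by helper187
-/

set_option autoImplicit false

open NumberField IsDedekindDomain Filter Topology

namespace Pool.Agent.H187.CGH

open Pool.Agent.H465.CG
open Pool.Agent.Y773 (LI)

lemma card_range_eval (C : Type) [CommGroup C] [Finite C] (c : C) :
    Nat.card (MonoidHom.eval (M := C) (N := ℂˣ) c).range = orderOf c := by
  set φ : (C →* ℂˣ) →* ℂˣ := MonoidHom.eval c with hφd
  have hφ : ∀ f, φ f = f c := fun f => rfl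
  have hn : 0 < orderOf c := orderOf_pos c
  have : NeZero (orderOf c) := ⟨hn.ne'⟩
  have hle : φ.range ≤ rootsOfUnity (orderOf c) ℂ := by
    rintro y ⟨f, rfl⟩
    rw [mem_rootsOfUnity, hφ, ← map_pow, pow_orderOf_eq_one, map_one]
  have hfin : Finite φ.range := Finite.of_injective _ (Subgroup.inclusion_injective hle)
  apply Nat.dvd_antisymm
  · have h1 := Subgroup.card_dvd_of_le hle
    rwa [Complex.card_rootsOfUnity] at h1
  · apply orderOf_dvd_of_pow_eq_one
    rw [← CommGroup.forall_apply_eq_apply_iff C (M := ℂ)]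
    intro f
    rw [map_pow, map_one]
    have h2 : (⟨φ f, ⟨f, rfl⟩⟩ : φ.range) ^ Nat.card φ.range = 1 := pow_card_eq_one'
    have h3 := congrArg Subtype.val h2
    exact h3

lemma prod_chars (C : Type) [CommGroup C] [Finite C] [Fintype (C →* ℂˣ)] (c : C) (X : ℂ) (k : ℕ)
    (hk : orderOf c * k = Nat.card C) :
    ∏ f : C →* ℂˣ, (1 - X * ((f c : ℂˣ) : ℂ)) = (1 - X ^ orderOf c) ^ k := by
  classical
  have hn : 0 < orderOf c := orderOf_pos c
  have : NeZero (orderOf c) := ⟨hn.ne'⟩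
  set φ : (C →* ℂˣ) →* ℂˣ := MonoidHom.eval c with hφd
  have hφ : ∀ f, φ f = f c := fun f => rfl
  have hcard : (Finset.univ.image φ).card = orderOf c := by
    rw [← card_range_eval C c, ← hφd]
    rw [← Set.toFinset_range]
    rw [← Nat.card_eq_card_toFinset]
    rfl
  have hfib : ∀ b ∈ Finset.univ.image φ, (Finset.univ.filter fun f => φ f = b).card =
      (Finset.univ.filter fun f => φ f = 1).card := by
    intro b hb
    obtain ⟨f, -, hf⟩ := Finset.mem_image.1 hb
    exact MonoidHom.card_fiber_eq_of_mem_range φ ⟨f, hf⟩ ⟨1, map_one φ⟩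
  have hq : (Finset.univ.filter fun f => φ f = 1).card = k := by
    have h1 := Finset.card_eq_sum_card_image φ (Finset.univ : Finset (C →* ℂˣ))
    rw [Finset.sum_congr rfl hfib, Finset.sum_const, hcard, smul_eq_mul, Finset.card_univ,
      ← Nat.card_eq_fintype_card, CommGroup.card_monoidHom_of_hasEnoughRootsOfUnity, ← hk] at h1
    exact (Nat.eq_of_mul_eq_mul_left hn h1).symm
  have h1 : ∏ f : C →* ℂˣ, (1 - X * ((f c : ℂˣ) : ℂ)) =
      ∏ b ∈ Finset.univ.image φ, (1 - X * ((b : ℂˣ) : ℂ)) ^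
        (Finset.univ.filter fun f => φ f = b).card :=
    Finset.prod_comp (s := (Finset.univ : Finset (C →* ℂˣ)))
      (fun b : ℂˣ => (1 - X * ((b : ℂˣ) : ℂ))) φ
  have h2 : ∏ b ∈ Finset.univ.image φ, (1 - X * ((b : ℂˣ) : ℂ)) ^
        (Finset.univ.filter fun f => φ f = b).card =
      ∏ b ∈ Finset.univ.image φ, (1 - X * ((b : ℂˣ) : ℂ)) ^ k :=
    Finset.prod_congr rfl fun b hb => by rw [hfib b hb, hq]
  have h3 : (Finset.univ.image φ).image (fun b : ℂˣ => (b : ℂ)) =
      Polynomial.nthRootsFinset (orderOf c) (1 : ℂ) := by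
    apply Finset.eq_of_subset_of_card_le
    · intro z hz
      obtain ⟨b, hb, rfl⟩ := Finset.mem_image.1 hz
      obtain ⟨f, -, rfl⟩ := Finset.mem_image.1 hb
      rw [Polynomial.mem_nthRootsFinset hn, hφ, ← Units.val_pow_eq_pow_val, ← map_pow,
        pow_orderOf_eq_one, map_one, Units.val_one]
    · rw [Finset.card_image_of_injective _ Units.val_injective, hcard]
      exact ((Complex.isPrimitiveRoot_exp (orderOf c) hn.ne').card_nthRootsFinset).le
  rw [h1, h2, Finset.prod_pow]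
  congr 1
  have h4 := (Complex.isPrimitiveRoot_exp (orderOf c) hn.ne').pow_sub_pow_eq_prod_sub_mul 1 X hn
  rw [one_pow] at h4
  rw [h4, ← h3, Finset.prod_image (fun a _ b _ h => Units.val_injective h)]
  exact Finset.prod_congr rfl fun b _ => by rw [mul_comm]

section
variable {K H : Type} [Field K] [NumberField K] [Field H] [NumberField H] [Algebra K H]

/-- the place of `K` below a place of `H` -/
noncomputable def dn (K : Type) {H : Type} [Field K] [NumberField K] [Field H] [NumberField H]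
    [Algebra K H] (w : HeightOneSpectrum (𝓞 H)) : HeightOneSpectrum (𝓞 K) where
  asIdeal := w.asIdeal.comap (algebraMap (𝓞 K) (𝓞 H))
  isPrime := w.isPrime.comap _
  ne_bot := fun h => w.ne_bot (Ideal.eq_bot_of_comap_eq_bot h)

lemma above_iff (w : HeightOneSpectrum (𝓞 H)) (v : HeightOneSpectrum (𝓞 K)) :
    Above w v ↔ dn K w = v := by
  constructor
  · intro h
    exact HeightOneSpectrum.ext h
  · rintro rfl
    rfl

lemma twc_norm {ψ : Ideal (𝓞 K) →*₀ ℂ} (hψ : ∀ 𝔞, ‖ψ 𝔞‖ ≤ 1) (f : ClassGroup (𝓞 K) →* ℂˣ)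
    (𝔞 : Ideal (𝓞 K)) : ‖twc ψ f 𝔞‖ ≤ 1 := by
  by_cases h : 𝔞 = ⊥
  · subst h
    have : twc ψ f (⊥ : Ideal (𝓞 K)) = 0 := map_zero (twc ψ f)
    rw [this, norm_zero]
    exact zero_le_one
  · rw [twc_apply ψ f h, norm_mul]
    set c := ClassGroup.mk0 ⟨𝔞, mem_nonZeroDivisors_iff_ne_zero.mpr h⟩ with hc
    have h1 : ‖((f c : ℂˣ) : ℂ)‖ = 1 := by
      have h2 : ((f c : ℂˣ) : ℂ) ^ orderOf c = 1 := by
        rw [← Units.val_pow_eq_pow_val, ← map_pow, pow_orderOf_eq_one, map_one, Units.val_one]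
      exact Complex.norm_eq_one_of_pow_eq_one h2 (orderOf_pos c).ne'
    rw [h1, mul_one]
    exact hψ 𝔞

end

theorem hilb : SHilb := by
  intro K H _ _ _ _ _ _ hH ψ hψ θ hθ s hs
  classical
  -- the product of the Euler products
  have hA : HasProd (fun v : HeightOneSpectrum (𝓞 K) => ∏ f : ClassGroup (𝓞 K) →* ℂˣ,
      (1 - twc ψ f v.asIdeal * ((Ideal.absNorm v.asIdeal : ℕ) : ℂ) ^ (-s))⁻¹)
      (∏ f : ClassGroup (𝓞 K) →* ℂˣ, LI (twc ψ f) s) :=
    hasProd_prod fun f _ => Pool.Agent.H465.PT.LI_prod (twc_norm hψ f) hs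
  -- local factors
  have hw : ∀ (v : HeightOneSpectrum (𝓞 K)) (w : HeightOneSpectrum (𝓞 H)), dn K w = v →
      θ w * ((Ideal.absNorm w.asIdeal : ℕ) : ℂ) ^ (-s) =
      (ψ v.asIdeal * ((Ideal.absNorm v.asIdeal : ℕ) : ℂ) ^ (-s)) ^ orderOf (pcl v) := by
    intro v w h
    have h1 : Above w v := (above_iff w v).2 h
    rw [hθ v w h1, hH.deg v w h1, mul_pow]
    congr 1
    push_cast
    rw [← Complex.natCast_cpow_natCast_mul, ← Complex.cpow_nat_mul, mul_comm]
  have hloc : ∀ v : HeightOneSpectrum (𝓞 K),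
      HasProd (fun w : {w : HeightOneSpectrum (𝓞 H) // dn K w = v} =>
        (1 - θ w.1 * ((Ideal.absNorm w.1.asIdeal : ℕ) : ℂ) ^ (-s))⁻¹)
      (∏ f : ClassGroup (𝓞 K) →* ℂˣ,
        (1 - twc ψ f v.asIdeal * ((Ideal.absNorm v.asIdeal : ℕ) : ℂ) ^ (-s))⁻¹) := by
    intro v
    have hnum := hH.num v
    have hc : Nat.card {w : HeightOneSpectrum (𝓞 H) // dn K w = v} =
        Nat.card {w : HeightOneSpectrum (𝓞 H) // Above w v} :=
      Nat.card_congr (Equiv.subtypeEquivRight fun w => (above_iff w v).symm)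
    rw [← hc] at hnum
    have hpos : Nat.card {w : HeightOneSpectrum (𝓞 H) // dn K w = v} ≠ 0 := by
      intro h0
      rw [h0, mul_zero] at hnum
      exact (Nat.card_pos (α := ClassGroup (𝓞 K))).ne hnum
    have hfin : Finite {w : HeightOneSpectrum (𝓞 H) // dn K w = v} :=
      Nat.finite_of_card_ne_zero hpos
    let _ := Fintype.ofFinite {w : HeightOneSpectrum (𝓞 H) // dn K w = v}
    set X : ℂ := ψ v.asIdeal * ((Ideal.absNorm v.asIdeal : ℕ) : ℂ) ^ (-s) with hX
    have h1 : ∏ f : ClassGroup (𝓞 K) →* ℂˣ,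
        (1 - twc ψ f v.asIdeal * ((Ideal.absNorm v.asIdeal : ℕ) : ℂ) ^ (-s))⁻¹ =
        ∏ w : {w : HeightOneSpectrum (𝓞 H) // dn K w = v},
          (1 - θ w.1 * ((Ideal.absNorm w.1.asIdeal : ℕ) : ℂ) ^ (-s))⁻¹ := by
      rw [Finset.prod_inv_distrib, Finset.prod_inv_distrib]
      congr 1
      have h2 : ∀ f : ClassGroup (𝓞 K) →* ℂˣ,
          (1 - twc ψ f v.asIdeal * ((Ideal.absNorm v.asIdeal : ℕ) : ℂ) ^ (-s)) =
          1 - X * ((f (pcl v) : ℂˣ) : ℂ) := by
        intro f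
        rw [twc_apply ψ f v.ne_bot, hX]
        unfold pcl
        ring
      have h3 : ∀ w : {w : HeightOneSpectrum (𝓞 H) // dn K w = v},
          (1 - θ w.1 * ((Ideal.absNorm w.1.asIdeal : ℕ) : ℂ) ^ (-s)) =
          1 - X ^ orderOf (pcl v) := by
        intro w
        rw [hw v w.1 w.2]
      rw [Finset.prod_congr rfl fun f _ => h2 f, Finset.prod_congr rfl fun w _ => h3 w,
        Finset.prod_const, Finset.card_univ, ← Nat.card_eq_fintype_card]
      exact prod_chars _ (pcl v) X _ hnum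
    rw [h1]
    exact hasProd_fintype _
  -- the product over `w` converges
  have hθ1 : ∀ w : HeightOneSpectrum (𝓞 H), ‖θ w‖ ≤ 1 := by
    intro w
    rw [hθ (dn K w) w ((above_iff w _).2 rfl), norm_pow]
    exact pow_le_one₀ (norm_nonneg _) (hψ _)
  have hM : Multipliable fun w : HeightOneSpectrum (𝓞 H) =>
      (1 - θ w * ((Ideal.absNorm w.asIdeal : ℕ) : ℂ) ^ (-s))⁻¹ := by
    have hsum : Summable fun w : HeightOneSpectrum (𝓞 H) =>
        ‖(1 - θ w * ((Ideal.absNorm w.asIdeal : ℕ) : ℂ) ^ (-s))⁻¹ - 1‖ := by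
      have hnr := ((Pool.Agent.Y772.DK.nr_summable H hs).comp_injective
        (i := fun w : HeightOneSpectrum (𝓞 H) => w.asIdeal)
        (fun w w' h => HeightOneSpectrum.ext h)).mul_left 2
      refine Summable.of_nonneg_of_le (fun _ => norm_nonneg _) (fun w => ?_) hnr
      have hN2 : 2 ≤ Ideal.absNorm w.asIdeal := Pool.Agent.H465.PT.two_le_absNorm w
      set N : ℕ := Ideal.absNorm w.asIdeal with hN
      set a : ℂ := θ w * ((N : ℕ) : ℂ) ^ (-s) with ha
      have h1 : ‖a‖ ≤ (N : ℝ) ^ (-s.re) := by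
        rw [ha, norm_mul, Complex.norm_natCast_cpow_of_pos (by omega), Complex.neg_re]
        calc ‖θ w‖ * (N : ℝ) ^ (-s.re) ≤ 1 * (N : ℝ) ^ (-s.re) :=
              mul_le_mul_of_nonneg_right (hθ1 w) (by positivity)
          _ = _ := one_mul _
      have h2 : (N : ℝ) ^ (-s.re) ≤ 1 / 2 := by
        calc (N : ℝ) ^ (-s.re) ≤ (N : ℝ) ^ (-1 : ℝ) :=
              Real.rpow_le_rpow_of_exponent_le (by exact_mod_cast (by omega : 1 ≤ N)) (by linarith)
          _ = (N : ℝ)⁻¹ := Real.rpow_neg_one _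
          _ ≤ 1 / 2 := by
              rw [inv_le_comm₀ (by positivity) (by norm_num)]
              norm_num
              exact_mod_cast hN2
      have h3 : 1 / 2 ≤ ‖1 - a‖ := by
        have := norm_sub_norm_le (1 : ℂ) a
        rw [norm_one] at this
        linarith
      have h4 : (1 - a) ≠ 0 := by
        intro h0
        rw [h0, norm_zero] at h3
        linarith
      have h5 : (1 - a)⁻¹ - 1 = a * (1 - a)⁻¹ := by
        field_simp
        ring
      rw [h5, norm_mul, norm_inv]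
      have h6 : ‖1 - a‖⁻¹ ≤ 2 := by
        rw [inv_le_comm₀ (by linarith) (by norm_num)]
        linarith
      calc ‖a‖ * ‖1 - a‖⁻¹ ≤ (N : ℝ) ^ (-s.re) * 2 :=
            mul_le_mul h1 h6 (by positivity) (by positivity)
        _ = 2 * (N : ℝ) ^ (-s.re) := mul_comm _ _
        _ = _ := rfl
    have h7 := multipliable_one_add_of_summable hsum
    refine h7.congr fun w => ?_
    ring
  have hS : HasProd (fun x : Σ v : HeightOneSpectrum (𝓞 K),
      {w : HeightOneSpectrum (𝓞 H) // dn K w = v} =>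
        (1 - θ x.2.1 * ((Ideal.absNorm x.2.1.asIdeal : ℕ) : ℂ) ^ (-s))⁻¹)
      (∏' w : HeightOneSpectrum (𝓞 H),
        (1 - θ w * ((Ideal.absNorm w.asIdeal : ℕ) : ℂ) ^ (-s))⁻¹) :=
    (Equiv.sigmaFiberEquiv (dn K)).hasProd_iff.2 hM.hasProd
  have h1 := (hS.sigma hloc).unique hA
  rw [← h1]
  exact hM.hasProd

end Pool.Agent.H187.CGH
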