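import Pool.Agent.H260.CV.Stm
import Pool.Graph.R_seed8.R748.CH.DECAY
import Pool.Graph.R_seed8.R748.CH.AILOW
import Pool.Graph.R_seed8.R748.CH.PH
import Pool.Graph.R_seed8.H140R2.FR.T01Airy

/-!
# Project CV (helper260): MZ, by helper187
-/

set_option autoImplicit false

open Complex MeasureTheory Set Filter Topology
open Pool.Agent.H140R2.FR (Ai Ai_ne_zero Ai_differentiable deriv_Ai_sq_bound Ai_conj)
open Pool.Agent.R748.CH

namespace Pool.Agent.H187.CV

open Pool.Agent.H260.CV Pool.Agent.R748.CH.PhAux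

theorem deriv_conj' (z : ℂ) : deriv Ai ((starRingEnd ℂ) z) = (starRingEnd ℂ) (deriv Ai z) := by
  have h := ((Ai_differentiable z).hasDerivAt).conj_conj
  have e : (⇑(starRingEnd ℂ) ∘ Ai ∘ ⇑(starRingEnd ℂ)) = Ai := by
    funext w
    simp only [Function.comp]
    rw [Ai_conj, Complex.conj_conj]
  rw [e] at h
  exact h.deriv

theorem qA_sym (ω : ℝ) : qA (-ω) = (starRingEnd ℂ) (qA ω) := by
  unfold qA
  rw [map_div₀, ← deriv_conj', ← Ai_conj, conj_Iw]

theorem dAi_cont : Continuous (deriv Ai) :=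
  (Ai_differentiable.contDiff (n := 1)).continuous_deriv_one

theorem qA_cont : Continuous qA := by
  unfold qA
  have h1 : Continuous fun ω : ℝ => Ai (I * (ω : ℂ)) :=
    Ai_differentiable.continuous.comp (by fun_prop)
  have h2 : Continuous fun ω : ℝ => deriv Ai (I * (ω : ℂ)) :=
    dAi_cont.comp (by fun_prop)
  exact h2.div h1 Ai_I_ne

/-- quadratic growth of the logarithmic derivative on the imaginary axis -/
theorem qA_bound : ∃ C : ℝ, 0 ≤ C ∧ ∀ ω : ℝ, ‖qA ω‖ ≤ C * (1 + |ω|) ^ 2 := by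
  obtain ⟨C, hC0, hC⟩ := t_AILOW
  obtain ⟨M, hM⟩ := (isCompact_Icc (a := (-1 : ℝ)) (b := 1)).exists_bound_of_continuousOn
    qA_cont.continuousOn
  refine ⟨|M| + 10 * C, by positivity, fun ω => ?_⟩
  have h1 : 1 ≤ (1 + |ω|) ^ 2 := by
    have := abs_nonneg ω
    nlinarith
  rcases le_or_gt |ω| 1 with h | h
  · have h2 := hM ω (abs_le.1 h)
    calc ‖qA ω‖ ≤ M := h2
      _ ≤ |M| * 1 := by rw [mul_one]; exact le_abs_self M
      _ ≤ (|M| + 10 * C) * (1 + |ω|) ^ 2 := by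
        apply mul_le_mul _ h1 (by norm_num) (by positivity)
        linarith
  · obtain ⟨p, hp2, hpre, hpim, hpn, -⟩ := decay_root 0 ω 0 le_rfl le_rfl (by linarith)
    rw [Complex.ofReal_zero, zero_add] at hp2
    have hpp : ‖p‖ ^ 2 = |ω| := by
      rw [← norm_pow, hp2, norm_mul, Complex.norm_I, one_mul, Complex.norm_real, Real.norm_eq_abs]
    have hp1 : 1 ≤ ‖p‖ := by
      by_contra hc
      push Not at hc
      have := norm_nonneg p
      nlinarith
    have hre : 1 / 2 ≤ p.re := by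
      have h2 := Complex.norm_le_abs_re_add_abs_im p
      rw [abs_of_pos hpre] at h2
      linarith
    have hpω : ‖p‖ ≤ 1 + |ω| := by nlinarith
    have hs1 : Real.sqrt (1 + ‖p‖) ≤ 2 * (1 + |ω|) := by
      apply Real.sqrt_le_iff.2
      constructor
      · positivity
      · nlinarith
    have hs2 : Real.sqrt (Real.pi / p.re) ≤ 3 := by
      apply Real.sqrt_le_iff.2
      constructor
      · norm_num
      · rw [div_le_iff₀ hpre]
        nlinarith [Real.pi_lt_four]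
    have hs3 : 1 / p.re ≤ 2 := by
      rw [div_le_iff₀ hpre]
      linarith
    have hd := deriv_Ai_sq_bound p hpre
    have ha := hC p hpre hpim
    rw [hp2] at hd ha
    have e : qA ω = deriv Ai (I * (ω : ℂ)) * (Ai (I * (ω : ℂ)))⁻¹ := by
      unfold qA
      rw [div_eq_mul_inv]
    rw [e, norm_mul]
    have hexp : Real.exp (-(2 / 3) * (p ^ 3).re) * Real.exp ((2 / 3) * (p ^ 3).re) = 1 := by
      rw [← Real.exp_add]
      have : -(2 / 3) * (p ^ 3).re + 2 / 3 * (p ^ 3).re = 0 := by ring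
      rw [this, Real.exp_zero]
    have hX : ‖p‖ * Real.sqrt (Real.pi / p.re) + 1 / p.re ≤ 5 * (1 + |ω|) := by
      have h2 : ‖p‖ * Real.sqrt (Real.pi / p.re) ≤ (1 + |ω|) * 3 := by
        apply mul_le_mul hpω hs2 (Real.sqrt_nonneg _) (by positivity)
      have := abs_nonneg ω
      linarith
    calc ‖deriv Ai (I * (ω : ℂ))‖ * ‖(Ai (I * (ω : ℂ)))⁻¹‖
        ≤ (Real.exp (-(2 / 3) * (p ^ 3).re) * (‖p‖ * Real.sqrt (Real.pi / p.re) + 1 / p.re)) *
          (C * Real.sqrt (1 + ‖p‖) * Real.exp ((2 / 3) * (p ^ 3).re)) := by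
          apply mul_le_mul hd ha (norm_nonneg _)
          positivity
      _ = C * ((‖p‖ * Real.sqrt (Real.pi / p.re) + 1 / p.re) * Real.sqrt (1 + ‖p‖)) *
          (Real.exp (-(2 / 3) * (p ^ 3).re) * Real.exp ((2 / 3) * (p ^ 3).re)) := by ring
      _ = C * ((‖p‖ * Real.sqrt (Real.pi / p.re) + 1 / p.re) * Real.sqrt (1 + ‖p‖)) := by
          rw [hexp, mul_one]
      _ ≤ C * ((5 * (1 + |ω|)) * (2 * (1 + |ω|))) := by
          apply mul_le_mul_of_nonneg_left _ hC0.le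
          apply mul_le_mul hX hs1 (Real.sqrt_nonneg _) (by positivity)
      _ = 10 * C * (1 + |ω|) ^ 2 := by ring
      _ ≤ (|M| + 10 * C) * (1 + |ω|) ^ 2 := by
          apply mul_le_mul_of_nonneg_right _ (by positivity)
          linarith [abs_nonneg M]

/-- powers are dominated by the exponential -/
theorem pow_exp (k : ℕ) (y : ℝ) (hy : 0 ≤ y) :
    (1 + y) ^ k ≤ ((k.factorial : ℝ) * Real.exp 1) * Real.exp y := by
  have h := pow_le k (1 + y) (by linarith)
  rw [Real.exp_add] at h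
  linarith

/-- a function of polynomial growth times `ph0` has all moments -/
theorem mom_mul (g : ℝ → ℂ) (hg : Continuous g) (C : ℝ) (k : ℕ)
    (hC : ∀ ω : ℝ, ‖g ω‖ ≤ C * (1 + |ω|) ^ k)
    (hs : ∀ ω : ℝ, g (-ω) = (starRingEnd ℂ) (g ω)) : Mom (fun ω => ph0 ω * g ω) := by
  obtain ⟨D, hD0, hD⟩ := ph0_decay (t_DECAY t_AILOW) 3
  have hcont : Continuous (fun ω => ph0 ω * g ω) := ph0_cont.mul hg
  have hb : ∀ ω : ℝ, ‖ph0 ω * g ω‖ ≤
      (D * (|C| * ((k.factorial : ℝ) * Real.exp 1))) * Real.exp (-(2 * |ω|)) := by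
    intro ω
    rw [norm_mul]
    have h1 := hD ω
    have h2 : ‖g ω‖ ≤ |C| * (((k.factorial : ℝ) * Real.exp 1) * Real.exp |ω|) := by
      calc ‖g ω‖ ≤ C * (1 + |ω|) ^ k := hC ω
        _ ≤ |C| * (1 + |ω|) ^ k := by
            apply mul_le_mul_of_nonneg_right (le_abs_self C)
            positivity
        _ ≤ _ := mul_le_mul_of_nonneg_left (pow_exp k |ω| (abs_nonneg ω)) (abs_nonneg C)
    have e : Real.exp (-(2 * |ω|)) = Real.exp (-(3 * |ω|)) * Real.exp |ω| := by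
      rw [← Real.exp_add]
      congr 1
      ring
    calc ‖ph0 ω‖ * ‖g ω‖ ≤ (D * Real.exp (-(3 * |ω|))) *
          (|C| * (((k.factorial : ℝ) * Real.exp 1) * Real.exp |ω|)) := by
          apply mul_le_mul h1 h2 (norm_nonneg _) (by positivity)
      _ = _ := by rw [e]; ring
  exact ⟨hcont, mom_of _ hcont _ hb, fun ω => by rw [ph0_sym, hs, map_mul]⟩

theorem t_MZ : S_MZ := by
  obtain ⟨C, hC0, hC⟩ := qA_bound
  have h0 : (starRingEnd ℂ) (qA 0) = qA 0 := by
    rw [← qA_sym, neg_zero]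
  constructor
  · refine mom_mul (fun ω => qA ω - qA 0) (qA_cont.sub continuous_const) (2 * C) 2 ?_ ?_
    · intro ω
      have h1 := hC ω
      have h2 := hC 0
      rw [abs_zero, add_zero, one_pow, mul_one] at h2
      have h3 : 1 ≤ (1 + |ω|) ^ 2 := by
        have := abs_nonneg ω
        nlinarith
      have h4 : C ≤ C * (1 + |ω|) ^ 2 := le_mul_of_one_le_right hC0 h3
      calc ‖qA ω - qA 0‖ ≤ ‖qA ω‖ + ‖qA 0‖ := norm_sub_le _ _
        _ ≤ 2 * C * (1 + |ω|) ^ 2 := by linarith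
    · intro ω
      rw [map_sub, h0, qA_sym]
  · refine mom_mul (fun ω => qA ω ^ 2 - I * (ω : ℂ)) ((qA_cont.pow 2).sub (by fun_prop))
      (C ^ 2 + 1) 4 ?_ ?_
    · intro ω
      have h1 := hC ω
      have h2 : ‖qA ω ^ 2‖ ≤ C ^ 2 * (1 + |ω|) ^ 4 := by
        rw [norm_pow]
        calc ‖qA ω‖ ^ 2 ≤ (C * (1 + |ω|) ^ 2) ^ 2 := pow_le_pow_left₀ (norm_nonneg _) h1 2
          _ = _ := by ring
      have h3 : ‖I * (ω : ℂ)‖ ≤ (1 + |ω|) ^ 4 := by
        rw [norm_mul, Complex.norm_I, one_mul, Complex.norm_real, Real.norm_eq_abs]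
        have h4 : 1 ≤ 1 + |ω| := by linarith [abs_nonneg ω]
        calc |ω| ≤ 1 + |ω| := by linarith
          _ = (1 + |ω|) ^ 1 := (pow_one _).symm
          _ ≤ (1 + |ω|) ^ 4 := pow_le_pow_right₀ h4 (by norm_num)
      calc ‖qA ω ^ 2 - I * (ω : ℂ)‖ ≤ ‖qA ω ^ 2‖ + ‖I * (ω : ℂ)‖ := norm_sub_le _ _
        _ ≤ (C ^ 2 + 1) * (1 + |ω|) ^ 4 := by linarith
    · intro ω
      rw [map_sub, map_pow, conj_Iw, qA_sym]

end Pool.Agent.H187.CV
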