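import Pool.Agent.H646.EC.Stm

/-!
# Project EC: closure of back-and-forth positions under words
-/

set_option autoImplicit false

namespace Pool.Agent.H187.ECwd

open Pool.Agent.H646.EC

section gen

variable {ι α β : Type} {R : ι → α → α → α → Prop} {S : ι → β → β → β → Prop}

theorem BF_mono : ∀ (k : ℕ) {P Q : Set (α × β)}, Q ⊆ P → BF R S k P → BF R S k Q
  | 0, _, _, h, h0 => ⟨fun p hp q hq => h0.1 p (h hp) q (h hq),
      fun s p hp q hq r hr => h0.2 s p (h hp) q (h hq) r (h hr)⟩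
  | k + 1, _, _, h, h0 => by
      refine ⟨fun x => ?_, fun y => ?_⟩
      · obtain ⟨y, hy⟩ := h0.1 x
        exact ⟨y, BF_mono k (Set.insert_subset_insert h) hy⟩
      · obtain ⟨x, hx⟩ := h0.2 y
        exact ⟨x, BF_mono k (Set.insert_subset_insert h) hx⟩

theorem BF_down [Nonempty α] (k : ℕ) {P : Set (α × β)} (h : BF R S (k + 1) P) : BF R S k P := by
  obtain ⟨y, hy⟩ := h.1 (Classical.arbitrary α)
  exact BF_mono k (Set.subset_insert _ _) hy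

theorem BF_to_zero [Nonempty α] : ∀ (k : ℕ) {P : Set (α × β)}, BF R S k P → BF R S 0 P
  | 0, _, h => h
  | k + 1, _, h => BF_to_zero k (BF_down k h)

end gen

section blk

variable {n : ℕ} {K : Type} [CommRing K] {γ₁ γ₂ γ₁' γ₂' : Kˣ}

/-- one move -/
theorem move {k : ℕ} {P : Set (NN n K γ₁ γ₂ × NN n K γ₁' γ₂')}
    {a b : NN n K γ₁ γ₂} {a' b' : NN n K γ₁' γ₂'} (ha : (a, a') ∈ P) (hb : (b, b') ∈ P)
    (h : BF (RN n K γ₁ γ₂) (RN n K γ₁' γ₂') (k + 1) P) (q : Q0) :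
    BF (RN n K γ₁ γ₂) (RN n K γ₁' γ₂') k (insert (a * nactF q b, a' * nactF q b') P) := by
  obtain ⟨y, hy⟩ := h.1 (a * nactF q b)
  have h0 := (BF_to_zero k hy).2 q (a, a') (Set.mem_insert_of_mem _ ha) (b, b')
    (Set.mem_insert_of_mem _ hb) (a * nactF q b, y) (Set.mem_insert _ _)
  have h1 : a' * nactF q b' = y := h0.1 rfl
  rw [h1]
  exact hy

/-- the inverse of a position -/
theorem moveInv {k : ℕ} {P : Set (NN n K γ₁ γ₂ × NN n K γ₁' γ₂')}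
    {a : NN n K γ₁ γ₂} {a' : NN n K γ₁' γ₂'} (ha : (a, a') ∈ P) (h1 : ((1 : NN n K γ₁ γ₂),
      (1 : NN n K γ₁' γ₂')) ∈ P)
    (h : BF (RN n K γ₁ γ₂) (RN n K γ₁' γ₂') (k + 1) P) :
    BF (RN n K γ₁ γ₂) (RN n K γ₁' γ₂') k (insert (a⁻¹, a'⁻¹) P) := by
  obtain ⟨y, hy⟩ := h.1 a⁻¹
  have h0 := (BF_to_zero k hy).2 1 (a, a') (Set.mem_insert_of_mem _ ha) (a⁻¹, y)
    (Set.mem_insert _ _) (1, 1) (Set.mem_insert_of_mem _ h1)
  have h2 : a' * nactF 1 y = 1 := h0.1 (by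
    show a * nactF 1 a⁻¹ = 1
    rw [nactF_one, mul_inv_cancel])
  rw [nactF_one] at h2
  have h3 : y = a'⁻¹ := eq_inv_of_mul_eq_one_right h2
  rw [← h3]
  exact hy

end blk

theorem left_mul (n : ℕ) (K : Type) [CommRing K] (γ₁ γ₂ : Kˣ) (v w : F7) :
    (pi n K γ₁ γ₂ (v * w)).left =
      (pi n K γ₁ γ₂ v).left * nactF (Phi v) (pi n K γ₁ γ₂ w).left := by
  rw [map_mul, SemidirectProduct.mul_left, pi_right, nact_apply]

theorem left_inv (n : ℕ) (K : Type) [CommRing K] (γ₁ γ₂ : Kˣ) (v : F7) :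
    (pi n K γ₁ γ₂ v⁻¹).left = nactF (Phi v)⁻¹ ((pi n K γ₁ γ₂ v).left)⁻¹ := by
  rw [map_inv, SemidirectProduct.inv_left, pi_right, nact_apply]

/-- the property of a word -/
def Wp (v : F7) : Prop := ∃ c : ℕ, ∀ (k n : ℕ) (K : Type) [CommRing K] (γ₁ γ₂ γ₁' γ₂' : Kˣ)
  (P : Set (NN n K γ₁ γ₂ × NN n K γ₁' γ₂')), marks n K γ₁ γ₂ γ₁' γ₂' ⊆ P →
  BF (RN n K γ₁ γ₂) (RN n K γ₁' γ₂') (k + c) P →
  BF (RN n K γ₁ γ₂) (RN n K γ₁' γ₂') k
    (insert ((pi n K γ₁ γ₂ v).left, (pi n K γ₁' γ₂' v).left) P)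

theorem one_mark (n : ℕ) (K : Type) [CommRing K] (γ₁ γ₂ γ₁' γ₂' : Kˣ) :
    ((1 : NN n K γ₁ γ₂), (1 : NN n K γ₁' γ₂')) ∈ marks n K γ₁ γ₂ γ₁' γ₂' :=
  ⟨3, rfl⟩

theorem Wp_one : Wp 1 := by
  refine ⟨0, fun k n K _ γ₁ γ₂ γ₁' γ₂' P hP h => BF_mono k ?_ h⟩
  apply Set.insert_subset _ subset_rfl
  rw [map_one, map_one]
  exact hP (one_mark n K γ₁ γ₂ γ₁' γ₂')

theorem Wp_of (j : Fin 7) : Wp (FreeGroup.of j) := by
  refine ⟨0, fun k n K _ γ₁ γ₂ γ₁' γ₂' P hP h => BF_mono k ?_ h⟩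
  apply Set.insert_subset _ subset_rfl
  apply hP
  refine ⟨j, ?_⟩
  unfold pi
  rw [FreeGroup.lift_apply_of, FreeGroup.lift_apply_of]

theorem Wp_inv {v : F7} (hv : Wp v) : Wp v⁻¹ := by
  obtain ⟨c, hc⟩ := hv
  refine ⟨2 + c, fun k n K _ γ₁ γ₂ γ₁' γ₂' P hP h => ?_⟩
  have h1 := hc (k + 2) n K γ₁ γ₂ γ₁' γ₂' P hP (by rw [add_assoc]; exact h)
  have h1m : ((1 : NN n K γ₁ γ₂), (1 : NN n K γ₁' γ₂')) ∈ P := hP (one_mark n K γ₁ γ₂ γ₁' γ₂')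
  have h2 := moveInv (k := k + 1) (Set.mem_insert _ _) (Set.mem_insert_of_mem _ h1m) h1
  have h3 := move (k := k) (Set.mem_insert_of_mem _ (Set.mem_insert_of_mem _ h1m))
    (Set.mem_insert _ _) h2 (Phi v)⁻¹
  rw [one_mul, one_mul, ← left_inv, ← left_inv] at h3
  refine BF_mono k ?_ h3
  exact Set.insert_subset_insert ((Set.subset_insert _ _).trans (Set.subset_insert _ _))

theorem Wp_mul {v w : F7} (hv : Wp v) (hw : Wp w) : Wp (v * w) := by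
  obtain ⟨c, hc⟩ := hv
  obtain ⟨d, hd⟩ := hw
  refine ⟨1 + d + c, fun k n K _ γ₁ γ₂ γ₁' γ₂' P hP h => ?_⟩
  have h1 := hc (k + (1 + d)) n K γ₁ γ₂ γ₁' γ₂' P hP (by rw [add_assoc]; exact h)
  have h2 := hd (k + 1) n K γ₁ γ₂ γ₁' γ₂' _ (hP.trans (Set.subset_insert _ _))
    (by rw [add_assoc]; exact h1)
  have h3 := move (k := k) (Set.mem_insert_of_mem _ (Set.mem_insert _ _)) (Set.mem_insert _ _) h2
    (Phi v)
  rw [← left_mul, ← left_mul] at h3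
  refine BF_mono k ?_ h3
  exact Set.insert_subset_insert ((Set.subset_insert _ _).trans (Set.subset_insert _ _))

theorem Wp_all (v : F7) : Wp v := by
  refine FreeGroup.induction_on v Wp_one Wp_of (fun x hx => Wp_inv hx) (fun x y hx hy => Wp_mul hx hy)

theorem holds : S_wd := by
  classical
  intro W k
  have key : ∀ W : Finset F7, ∃ c : ℕ, ∀ (k n : ℕ) (K : Type) [CommRing K] (γ₁ γ₂ γ₁' γ₂' : Kˣ)
      (P : Set (NN n K γ₁ γ₂ × NN n K γ₁' γ₂')), marks n K γ₁ γ₂ γ₁' γ₂' ⊆ P →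
      BF (RN n K γ₁ γ₂) (RN n K γ₁' γ₂') (k + c) P →
      BF (RN n K γ₁ γ₂) (RN n K γ₁' γ₂') k
        ({p | ∃ v ∈ W, p = ((pi n K γ₁ γ₂ v).left, (pi n K γ₁' γ₂' v).left)} ∪ P) := by
    intro W
    induction W using Finset.induction_on with
    | empty =>
      refine ⟨0, fun k n K _ γ₁ γ₂ γ₁' γ₂' P hP h => BF_mono k ?_ h⟩
      rintro p (⟨v, hv, -⟩ | hp)
      · exact absurd hv (Finset.notMem_empty v)
      · exact hp
    | insert w W _ ih =>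
      obtain ⟨c, hc⟩ := ih
      obtain ⟨d, hd⟩ := Wp_all w
      refine ⟨d + c, fun k n K _ γ₁ γ₂ γ₁' γ₂' P hP h => ?_⟩
      have h1 := hc (k + d) n K γ₁ γ₂ γ₁' γ₂' P hP (by rw [add_assoc]; exact h)
      have h2 := hd k n K γ₁ γ₂ γ₁' γ₂' _ (hP.trans Set.subset_union_right) h1
      refine BF_mono k ?_ h2
      rintro p (⟨v, hv, rfl⟩ | hp)
      · rcases Finset.mem_insert.1 hv with rfl | hv
        · exact Set.mem_insert _ _
        · exact Set.mem_insert_of_mem _ (Or.inl ⟨v, hv, rfl⟩)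
      · exact Set.mem_insert_of_mem _ (Or.inr hp)
  obtain ⟨c, hc⟩ := key W
  refine ⟨k + c, fun n K _ γ₁ γ₂ γ₁' γ₂' h => ?_⟩
  exact BF_mono k Set.subset_union_left (hc k n K γ₁ γ₂ γ₁' γ₂' _ subset_rfl h)

end Pool.Agent.H187.ECwd
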