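import Pool.Agent.H857.EF.Core

/-!
# Project ExoticFourfolds (helper857): S20 and S21a, by helper187
-/

set_option autoImplicit false

namespace Pool.Agent.H187.EF

open Module Polynomial Pool.Agent.W521.Descent Pool.Agent.W521.Density Pool.Agent.W521.Count
  Pool.Agent.X297.UB Pool.Agent.H857.PB Pool.Agent.H857.PA Pool.Agent.H857.HK Pool.Agent.H857.EF

lemma half_map_conj {q : ℕ} {e t : ℂ} {z : Fin 4 → ℂ} (h : ∏ i, (X - C (z i)) = half q e t) :
    (half q e t).map (starRingEnd ℂ) = ∏ i, (X - C ((starRingEnd ℂ) (z i))) := by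
  rw [← h, Polynomial.map_prod]
  refine Finset.prod_congr rfl fun i _ => ?_
  rw [Polynomial.map_sub, map_X, map_C]

lemma aeval_map_cast (f : ℤ[X]) (z : ℂ) : aeval z f = (f.map (Int.castRingHom ℂ)).eval z := by
  rw [eval_map]
  rfl

theorem s20 (ha : S20a) (hb : S20b) : S20 := by
  intro q A n t hq hP
  obtain ⟨h1, h2, h3, h4, h5, h6⟩ := hP
  have hAn : (A : ℝ) ^ 2 ≤ 4 * n := by
    have : A ^ 2 ≤ 4 * n := by nlinarith
    exact_mod_cast this
  set s : ℝ := Real.sqrt (4 * n - A ^ 2) with hs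
  have hs2 : s ^ 2 = 4 * n - (A : ℝ) ^ 2 := Real.sq_sqrt (by linarith)
  set e : ℂ := ⟨(A : ℝ) / 2, s / 2⟩ with he
  have hadd : e + (starRingEnd ℂ) e = A := by
    apply Complex.ext
    · rw [Complex.add_re, Complex.conj_re, Complex.intCast_re, he]
      ring
    · rw [Complex.add_im, Complex.conj_im, Complex.intCast_im, he]
      ring
  have hns : Complex.normSq e = n := by
    rw [Complex.normSq_apply, he]
    show (A : ℝ) / 2 * (A / 2) + s / 2 * (s / 2) = n
    nlinarith
  have hmul : e * (starRingEnd ℂ) e = n := by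
    rw [Complex.mul_conj, hns, Complex.ofReal_intCast]
  have h16 : 16 * ‖e‖ ^ 2 ≤ q := by
    rw [← Complex.normSq_eq_norm_sq, hns]
    exact_mod_cast h4
  obtain ⟨z, hz1, hz2, hz3⟩ := hb q e (t : ℝ) hq h16 (by exact_mod_cast (by omega : 0 ≤ t))
    (by exact_mod_cast h6)
  rw [Complex.ofReal_intCast] at hz3
  have hmap := ha q A n t e hq hadd hmul
  have hroot : ∀ i, aeval (z i) (wp q 4 (cf q A n t)) = 0 := by
    intro i
    rw [aeval_map_cast, hmap, eval_mul, ← hz3, eval_prod, Finset.prod_eq_zero (Finset.mem_univ i),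
      zero_mul]
    rw [eval_sub, eval_X, eval_C, sub_self]
  refine ⟨⟨wp_monic q 4 _, wp_natDegree q 4 _, ?_, ?_⟩, e, z,
    ⟨hadd, hmul, hz2, hz3, hroot⟩, hz1⟩
  · have h7 := Pool.Agent.W521.Lower.weil_coeff_zero q (mkPoly_monic 4 (cf q A n t))
    rw [mkPoly_natDegree] at h7
    exact h7
  · intro w hw
    rw [aeval_map_cast, hmap, eval_mul, half_map_conj hz3, ← hz3, eval_prod, eval_prod] at hw
    rcases mul_eq_zero.1 hw with h7 | h7
    · obtain ⟨i, -, hi⟩ := Finset.prod_eq_zero_iff.1 h7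
      rw [eval_sub, eval_X, eval_C, sub_eq_zero] at hi
      rw [hi]
      exact hz2 i
    · obtain ⟨i, -, hi⟩ := Finset.prod_eq_zero_iff.1 h7
      rw [eval_sub, eval_X, eval_C, sub_eq_zero] at hi
      rw [hi, Complex.norm_conj]
      exact hz2 i

lemma quart_inj {a b c d a' b' c' d' : ℂ}
    (h : (X ^ 4 - C a * X ^ 3 + C b * X ^ 2 - C c * X + C d : ℂ[X]) =
      X ^ 4 - C a' * X ^ 3 + C b' * X ^ 2 - C c' * X + C d') :
    a = a' ∧ b = b' ∧ c = c' ∧ d = d' := by
  have h0 := congrArg (fun p => coeff p 0) h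
  have h1 := congrArg (fun p => coeff p 1) h
  have h2 := congrArg (fun p => coeff p 2) h
  have h3 := congrArg (fun p => coeff p 3) h
  simp [coeff_X, coeff_C] at h0
  simp [coeff_C, coeff_X_pow] at h1
  simp [coeff_X_pow] at h2
  simp [coeff_X_pow] at h3
  exact ⟨h3, h2, h1, h0⟩

lemma exists_perm (i j : Fin 4) (h : i ≠ j) : ∃ σ : Equiv.Perm (Fin 4), σ 0 = i ∧ σ 1 = j := by
  revert i j
  decide

theorem s21a : S21a := by
  intro q A n t e z i j hq hH hij hrel
  obtain ⟨σ, hσ0, hσ1⟩ := exists_perm i j hij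
  obtain ⟨N, hN, hNe⟩ := hrel
  have hq0 : (q : ℂ) ≠ 0 := by exact_mod_cast hq.ne'
  set w : Fin 4 → ℂ := fun k => z (σ k) with hw
  have hw0 : w 0 = z i := by rw [hw, ← hσ0]
  have hw1 : w 1 = z j := by rw [hw, ← hσ1]
  have hprod : ∏ k, (X - C (w k)) = half q e t := by
    rw [← hH.eq]
    exact Equiv.prod_comp σ fun k => (X - C (z k))
  have hexp : (X ^ 4 - C (w 0 + w 1 + w 2 + w 3) * X ^ 3 +
      C (w 0 * w 1 + w 2 * w 3 + (w 0 + w 1) * (w 2 + w 3)) * X ^ 2 -
      C (w 0 * w 1 * (w 2 + w 3) + w 2 * w 3 * (w 0 + w 1)) * X +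
      C (w 0 * w 1 * (w 2 * w 3)) : ℂ[X]) =
      X ^ 4 - C e * X ^ 3 + C (t : ℂ) * X ^ 2 - C (q * (starRingEnd ℂ) e) * X +
        C ((q : ℂ) ^ 2) := by
    have h1 : (X ^ 4 - C e * X ^ 3 + C (t : ℂ) * X ^ 2 - C (q * (starRingEnd ℂ) e) * X +
        C ((q : ℂ) ^ 2) : ℂ[X]) = half q e t := rfl
    rw [h1, ← hprod, Fin.prod_univ_four]
    simp only [C_add, C_mul]
    ring
  obtain ⟨e1, e2, e3, e4⟩ := quart_inj hexp
  set ζ : ℂ := z i * z j / q with hζ
  have hζ1 : ζ ^ N = 1 := by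
    rw [hζ, div_pow, hNe, div_self (pow_ne_zero _ hq0)]
  have hnw : ∀ k, w k * (starRingEnd ℂ) (w k) = q := by
    intro k
    rw [Complex.mul_conj, Complex.normSq_eq_norm_sq]
    have := hH.norm (σ k)
    rw [hw, this, Complex.ofReal_natCast]
  have hP0 : w 0 * w 1 ≠ 0 := by
    intro h0
    rw [h0, zero_mul] at e4
    exact pow_ne_zero 2 hq0 e4.symm
  have hconj : (starRingEnd ℂ) ζ = w 2 * w 3 / q := by
    rw [hζ, map_div₀, map_mul, Complex.conj_natCast, ← hw0, ← hw1]
    rw [div_eq_div_iff hq0 hq0]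
    congr 1
    apply mul_left_cancel₀ hP0
    have h0 := hnw 0
    have h1 := hnw 1
    rw [e4]
    linear_combination (w 1 * (starRingEnd ℂ) (w 1)) * h0 + (q : ℂ) * h1
  have hre : ((ζ.re : ℝ) : ℂ) = (w 0 * w 1 + w 2 * w 3) / (2 * q) := by
    have h1 : ((ζ.re : ℝ) : ℂ) = (ζ + (starRingEnd ℂ) ζ) / 2 := by
      rw [Complex.add_conj]
      push_cast
      ring
    rw [h1, hconj, hζ, hw0, hw1]
    field_simp
  refine ⟨ζ, ⟨⟨N, hN, hζ1⟩, ?_⟩, ?_⟩
  · -- degree
    have hx : ∀ k : Bool, IsIntegral ℚ ((fun k : Bool => if k then z i else z j) k) ∧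
        (minpoly ℚ ((fun k : Bool => if k then z i else z j) k)).natDegree ≤ 8 := by
      intro k
      have hr : ∀ k, IsIntegral ℚ (z k) ∧ (minpoly ℚ (z k)).natDegree ≤ 8 := by
        intro k
        have h1 := root_data (wp_monic q 4 (cf q A n t)) (hH.root k)
        rwa [wp_natDegree] at h1
      cases k
      · exact hr j
      · exact hr i
    obtain ⟨h1, h2⟩ := finrank_adjoin_le (fun k : Bool => if k then z i else z j) 8
      (fun k => (hx k).1) (fun k => (hx k).2) Finset.univ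
    have h3 : (Finset.univ : Finset Bool).card = 2 := by decide
    rw [h3] at h2
    have hmem : ∀ k : Bool, (fun k : Bool => if k then z i else z j) k ∈
        IntermediateField.adjoin ℚ ((fun k : Bool => if k then z i else z j) ''
          (Finset.univ : Finset Bool)) :=
      fun k => IntermediateField.subset_adjoin _ _ ⟨k, by simp, rfl⟩
    have h4 : ζ ∈ IntermediateField.adjoin ℚ ((fun k : Bool => if k then z i else z j) ''
          (Finset.univ : Finset Bool)) := by
      rw [hζ]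
      refine div_mem (mul_mem (hmem true) (hmem false)) ?_
      exact natCast_mem _ q
    have h5 := natDegree_minpoly_le _ h4
    exact h5.trans (h2.trans (by norm_num))
  · -- the identity
    apply Complex.ofReal_injective
    push_cast
    rw [hre]
    have hA := hH.add
    have hn := hH.mul
    rw [← hA, ← hn, ← e2, ← e1]
    have hē : (starRingEnd ℂ) e =
        (w 0 * w 1 * (w 2 + w 3) + w 2 * w 3 * (w 0 + w 1)) / q := by
      rw [e3]
      field_simp
    rw [← e1] at hē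
    rw [hē]
    field_simp
    linear_combination (-(w 0 + w 1 - (w 2 + w 3)) ^ 2) * e4

end Pool.Agent.H187.EF
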