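import Pool.Agent.H867.FT.Gen2

/-!
# MP_7dd379_ag: prime avoidance, a regular sequence of length two
-/

namespace Pool.Agent.H187.FT867AVD

open Pool.Agent.H867.FT

theorem avd (h : S_KRU) : S_AVD := by
  intro P _ _ _ _ J hJ hq
  obtain ⟨c₁, hc₁J, hc₁⟩ := Submodule.exists_mem_ne_zero_of_ne_bot hJ
  have hone : 1 ≤ (Ideal.span {c₁}).height :=
    Ideal.one_le_height_span_singleton_of_mem_nonZeroDivisors
      (mem_nonZeroDivisors_of_ne_zero hc₁)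
  have hfin : ((Ideal.span {c₁}).minimalPrimes).Finite :=
    Ideal.finite_minimalPrimes_of_isNoetherianRing P _
  -- the minimal primes of `c₁` have height one
  have hht : ∀ 𝔭 ∈ (Ideal.span {c₁}).minimalPrimes, 𝔭.height = 1 := by
    intro 𝔭 h𝔭
    refine le_antisymm (Ideal.height_le_one_of_isPrincipal_of_mem_minimalPrimes _ 𝔭 h𝔭) ?_
    exact hone.trans (Ideal.height_mono h𝔭.1.2)
  -- prime avoidance
  obtain ⟨c₂, hc₂J, hc₂⟩ : ∃ c₂ ∈ J, ∀ 𝔭 ∈ (Ideal.span {c₁}).minimalPrimes, c₂ ∉ 𝔭 := by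
    by_contra hcon
    have hsub : (J : Set P) ⊆ ⋃ 𝔭 ∈ (Ideal.span {c₁}).minimalPrimes, ((𝔭 : Ideal P) : Set P) := by
      intro x hx
      by_contra hx'
      apply hcon
      refine ⟨x, hx, fun 𝔭 h𝔭 hx𝔭 => hx' ?_⟩
      exact Set.mem_biUnion h𝔭 hx𝔭
    obtain ⟨𝔭, h𝔭, hle⟩ := (Ideal.subset_union_prime_finite hfin (f := fun 𝔭 => 𝔭) ⊥ ⊥
      (fun 𝔭 h𝔭 _ _ => h𝔭.1.1)).1 hsub
    obtain ⟨c, hcJ, hc⟩ := hq 𝔭 h𝔭.1.1 (hht 𝔭 h𝔭)
    exact hc (hle hcJ)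
  refine ⟨c₁, c₂, hc₁J, hc₂J, hc₁, ?_⟩
  rintro u ⟨g, hg⟩
  have hinj : Function.Injective (algebraMap P (FractionRing P)) :=
    IsFractionRing.injective P (FractionRing P)
  have hc₁' : algebraMap P (FractionRing P) c₁ ≠ 0 := by
    intro h0
    exact hc₁ (hinj (by rw [h0, map_zero]))
  obtain ⟨g', hg'⟩ := h P (FractionRing P)
    (algebraMap P (FractionRing P) u / algebraMap P (FractionRing P) c₁) (by
      intro 𝔭 h𝔭 h𝔭1
      by_cases hc : c₁ ∈ 𝔭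
      · refine ⟨c₂, ?_, g, ?_⟩
        · apply hc₂
          have hle : Ideal.span {c₁} ≤ 𝔭 := (Ideal.span_singleton_le_iff_mem 𝔭).2 hc
          exact Ideal.mem_minimalPrimes_of_height_le hle (by rw [h𝔭1]; exact hone)
        · rw [← mul_div_assoc, div_eq_iff hc₁', ← map_mul, ← map_mul, hg, mul_comm]
      · refine ⟨c₁, hc, u, ?_⟩
        rw [mul_div_cancel₀ _ hc₁'])
  refine ⟨g', hinj ?_⟩
  rw [div_eq_iff hc₁'] at hg'
  rw [hg', map_mul, mul_comm]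

end Pool.Agent.H187.FT867AVD
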