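import Pool.Agent.H867.FT.Gen6
import Pool.Agent.H264.FT867TRZ

/-!
# TR2: torsion of the canonical class, arbitrary residue field (after helper264's TRZ)
-/

set_option autoImplicit false

namespace Pool.Agent.H187.FTTr2

open Polynomial Pool.Agent.H867.FT
open Pool.Agent.H264.FTTrz (mem_of_val aeval_mem_val key)

/-- two polynomials without common factor modulo the maximal ideal, one of them monic -/
theorem bezout2 {P : Type} [CommRing P] [IsLocalRing P] {A B : P[X]} (hA : A.Monic)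
    (h : ∀ G : P[X], G.Monic → 1 ≤ G.natDegree →
      ¬ ((∃ A' : P[X], ∀ n, (A - G * A').coeff n ∈ IsLocalRing.maximalIdeal P) ∧
        ∃ B' : P[X], ∀ n, (B - G * B').coeff n ∈ IsLocalRing.maximalIdeal P)) :
    ∃ U U' : P[X], U * A + U' * B = 1 := by
  by_contra hcon
  have hne : Ideal.span {A, B} ≠ ⊤ := by
    intro htop
    have h1 : (1 : P[X]) ∈ Ideal.span {A, B} := by rw [htop]; trivial
    rw [Ideal.mem_span_pair] at h1
    exact hcon h1
  obtain ⟨M, hM, hle⟩ := Ideal.exists_le_maximal _ hne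
  have hAM : A ∈ M := hle (Ideal.subset_span (by simp))
  have hBM : B ∈ M := hle (Ideal.subset_span (by simp))
  let _ : Field (P[X] ⧸ M) := Ideal.Quotient.field M
  obtain ⟨ξ, hξ⟩ : ∃ ξ : P[X] ⧸ M, ξ = Ideal.Quotient.mk M X := ⟨_, rfl⟩
  have hae : ∀ G : P[X], aeval ξ G = Ideal.Quotient.mk M G := by
    intro G
    have h1 : aeval ξ G = (Ideal.Quotient.mkₐ P M) (aeval X G) := by
      rw [← Polynomial.aeval_algHom_apply, hξ]
      rfl
    rw [h1, aeval_X_left_apply]
    rfl
  have hξi : IsIntegral P ξ := by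
    refine ⟨A, hA, ?_⟩
    change aeval ξ A = 0
    rw [hae]
    exact Ideal.Quotient.eq_zero_iff_mem.2 hAM
  have hint : Algebra.IsIntegral P (P[X] ⧸ M) := by
    refine ⟨fun y => ?_⟩
    obtain ⟨G, rfl⟩ := Ideal.Quotient.mk_surjective y
    rw [← hae]
    exact adjoin_le_integralClosure hξi (Polynomial.aeval_mem_adjoin_singleton P ξ)
  have hker : ∀ p : P, algebraMap P (P[X] ⧸ M) p = 0 ↔ p ∈ IsLocalRing.maximalIdeal P := by
    have hmax : (Ideal.comap (algebraMap P (P[X] ⧸ M)) ⊥).IsMaximal := by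
      have : (⊥ : Ideal (P[X] ⧸ M)).IsMaximal := Ideal.bot_isMaximal
      exact Ideal.isMaximal_comap_of_isIntegral_of_isMaximal _
    intro p
    rw [← IsLocalRing.eq_maximalIdeal hmax, Ideal.mem_comap, Ideal.mem_bot]
  let f : IsLocalRing.ResidueField P →+* (P[X] ⧸ M) :=
    Ideal.Quotient.lift (IsLocalRing.maximalIdeal P) (algebraMap P (P[X] ⧸ M))
      (fun p hp => (hker p).2 hp)
  have hf : f.comp (IsLocalRing.residue P) = algebraMap P (P[X] ⧸ M) := RingHom.ext fun p => rfl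
  have hev : ∀ G : P[X], G ∈ M → (G.map (IsLocalRing.residue P)).eval₂ f ξ = 0 := by
    intro G hG
    rw [Polynomial.eval₂_map, hf]
    change aeval ξ G = 0
    rw [hae]
    exact Ideal.Quotient.eq_zero_iff_mem.2 hG
  let _ : Algebra (IsLocalRing.ResidueField P) (P[X] ⧸ M) := f.toAlgebra
  have hk : IsIntegral (IsLocalRing.ResidueField P) ξ :=
    ⟨A.map (IsLocalRing.residue P), hA.map _, hev A hAM⟩
  obtain ⟨G, hG1, hG2, hG3⟩ := Polynomial.lifts_and_natDegree_eq_and_monic
    (f := IsLocalRing.residue P) (p := minpoly (IsLocalRing.ResidueField P) ξ)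
    (by
      rw [Polynomial.lifts_iff_coeff_lifts]
      intro n
      exact IsLocalRing.residue_surjective _) (minpoly.monic hk)
  have hdvd : ∀ F : P[X], F ∈ M →
      ∃ Q : P[X], ∀ n, (F - G * Q).coeff n ∈ IsLocalRing.maximalIdeal P := by
    intro F hF
    obtain ⟨q, hq⟩ := minpoly.dvd (IsLocalRing.ResidueField P) ξ (hev F hF)
    obtain ⟨Q, hQ⟩ := Polynomial.map_surjective _ (IsLocalRing.residue_surjective (R := P)) q
    refine ⟨Q, fun n => ?_⟩
    rw [← IsLocalRing.residue_eq_zero_iff, ← Polynomial.coeff_map, Polynomial.map_sub,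
      Polynomial.map_mul, hG1, hQ, hq, sub_self, Polynomial.coeff_zero]
  refine h G hG3 ?_ ⟨hdvd A hAM, hdvd B hBM⟩
  rw [hG2]
  exact minpoly.natDegree_pos hk

/-- **TR2.** -/
theorem tr2 : Pool.Agent.H867.FT.S_TR2 := by
  intro P R L K _ _ _ _ _ _ _ _ _ _ _ _ _ _ _ _ _ _ _ C a b c d z x y₀ ω θ hcub hz ha hzm
    hb hc hd hF
  obtain ⟨b₁, b₂, hb⟩ := Ideal.mem_span_pair.1 hb
  obtain ⟨c₁, c₂, hc⟩ := Ideal.mem_span_pair.1 hc
  obtain ⟨d₁, d₂, hd⟩ := Ideal.mem_span_pair.1 hd
  have hPR : Function.Injective (algebraMap P K) := by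
    rw [IsScalarTower.algebraMap_eq P L K]
    exact (algebraMap L K).injective.comp (IsFractionRing.injective P L)
  have ha0 : algebraMap P K a ≠ 0 := fun h => hcub.ha (hPR (by rw [h, map_zero]))
  have hz0 : algebraMap P K z ≠ 0 := fun h => hz (hPR (by rw [h, map_zero]))
  obtain ⟨A, hA⟩ : ∃ A : P[X], A = X ^ 3 + (Polynomial.C b₁ * X ^ 2 + Polynomial.C c₁ * X +
    Polynomial.C d₁) := ⟨_, rfl⟩
  obtain ⟨B, hB⟩ : ∃ B : P[X], B = Polynomial.C b₂ * X ^ 2 + Polynomial.C c₂ * X +
    Polynomial.C d₂ := ⟨_, rfl⟩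
  have hAm : A.Monic := by
    rw [hA]
    refine Polynomial.monic_X_pow_add ?_
    exact lt_of_le_of_lt Polynomial.degree_quadratic_le (by norm_num)
  obtain ⟨U, U', hU⟩ := bezout2 hAm (by
    rintro G hG hG1 ⟨⟨A', hA'⟩, ⟨B', hB'⟩⟩
    refine hF G hG hG1 ⟨Polynomial.C a * A' + Polynomial.C z * B', fun n => ?_⟩
    have e : Polynomial.C a * X ^ 3 + Polynomial.C b * X ^ 2 + Polynomial.C c * X +
        Polynomial.C d - G * (Polynomial.C a * A' + Polynomial.C z * B') =
        Polynomial.C a * (A - G * A') + Polynomial.C z * (B - G * B') := by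
      rw [hA, hB, ← hb, ← hc, ← hd]
      simp only [map_add, map_mul]
      ring
    rw [e, Polynomial.coeff_add, Polynomial.coeff_C_mul, Polynomial.coeff_C_mul, pow_two]
    exact Ideal.add_mem _ (Ideal.mul_mem_mul ha (hA' n)) (Ideal.mul_mem_mul hzm (hB' n)))
  obtain ⟨Ax, hAx⟩ : ∃ Ax, Ax = aeval x A := ⟨_, rfl⟩
  obtain ⟨Bx, hBx⟩ : ∃ Bx, Bx = aeval x B := ⟨_, rfl⟩
  have hAx' : Ax = x ^ 3 + algebraMap P K b₁ * x ^ 2 + algebraMap P K c₁ * x +
      algebraMap P K d₁ := by
    rw [hAx, hA]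
    simp only [map_add, map_mul, map_pow, aeval_X, aeval_C]
    ring
  have hBx' : Bx = algebraMap P K b₂ * x ^ 2 + algebraMap P K c₂ * x +
      algebraMap P K d₂ := by
    rw [hBx, hB]
    simp only [map_add, map_mul, map_pow, aeval_X, aeval_C]
  have hrel : algebraMap P K a * Ax + algebraMap P K z * Bx = 0 := by
    have h3 := hcub.root
    rw [← hb, ← hc, ← hd] at h3
    simp only [map_add, map_mul] at h3
    rw [hAx', hBx']
    linear_combination h3
  have hUx : aeval x U * Ax + aeval x U' * Bx = 1 := by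
    have h3 := congrArg (aeval x) hU
    simp only [map_add, map_mul, map_one] at h3
    rw [hAx, hBx]
    exact h3
  obtain ⟨t₀, ht⟩ : ∃ t₀, t₀ = Ax / algebraMap P K z := ⟨_, rfl⟩
  have hzt : algebraMap P K z * t₀ = Ax := by
    rw [ht]
    field_simp
  have hat : algebraMap P K a * t₀ = -Bx := by
    have h3 : algebraMap P K z * (algebraMap P K a * t₀ + Bx) = 0 := by
      linear_combination hrel + algebraMap P K a * hzt
    have h4 := (mul_eq_zero.1 h3).resolve_left hz0
    linear_combination h4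
  have h1 : t₀ * (algebraMap P K z * aeval x U - algebraMap P K a * aeval x U') = 1 := by
    linear_combination hUx + aeval x U * hzt - aeval x U' * hat
  have ht0 : t₀ ≠ 0 := left_ne_zero_of_mul_eq_one h1
  have hpow := Pool.Agent.H975.FTPow.pow P R K C a b c d x y₀ ω θ hcub.hy hcub.root hcub.hω
    hcub.hθ hcub.gen hcub.hC 3 (by norm_num)
  have hxm : ∀ i : ℕ, i ≤ 3 → x ^ i ∈ Submodule.span P (Set.range fun i : Fin (3 + 1) =>
      x ^ (i : ℕ)) := fun i hi => Submodule.subset_span ⟨⟨i, by omega⟩, rfl⟩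
  have hpm : ∀ (p : P) (i : ℕ), i ≤ 3 → algebraMap P K p * x ^ i ∈
      Submodule.span P (Set.range fun i : Fin (3 + 1) => x ^ (i : ℕ)) := by
    intro p i hi
    rw [← Algebra.smul_def]
    exact Submodule.smul_mem _ p (hxm i hi)
  refine ⟨y₀ ^ 3 * t₀, mul_ne_zero (pow_ne_zero _ hcub.hy) ht0, ?_, ?_, ?_⟩
  · intro y hy
    obtain ⟨m, hm, rfl⟩ := (hpow y).1 hy
    have hmr : ∃ r : R, m = algebraMap R K r * t₀ := by
      clear hy
      induction hm using Submodule.span_induction with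
      | mem m hm =>
        obtain ⟨i, rfl⟩ := hm
        obtain ⟨r, hr⟩ := key (R := R) ht0 h1 (hzt.trans hAx') (i : ℕ) (by omega)
        refine ⟨r, ?_⟩
        rw [hr]
        change x ^ (i : ℕ) = _
        field_simp
      | zero => exact ⟨0, by simp⟩
      | add m m' _ _ hm hm' =>
        obtain ⟨r, hr⟩ := hm
        obtain ⟨r', hr'⟩ := hm'
        exact ⟨r + r', by rw [map_add, add_mul, ← hr, ← hr']⟩
      | smul p m _ hm =>
        obtain ⟨r, hr⟩ := hm
        exact ⟨p • r, by rw [Algebra.smul_def, Algebra.smul_def, map_mul,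
          ← IsScalarTower.algebraMap_apply P R K, mul_assoc, ← hr]⟩
    obtain ⟨r, hr⟩ := hmr
    exact ⟨r, by rw [hr]; ring⟩
  · rw [hpow]
    refine ⟨-Bx, ?_, by linear_combination y₀ ^ 3 * hat⟩
    refine Submodule.neg_mem _ ?_
    rw [hBx']
    refine Submodule.add_mem _ (Submodule.add_mem _ (hpm _ 2 (by norm_num)) ?_) ?_
    · have := hpm c₂ 1 (by norm_num)
      rwa [pow_one] at this
    · have := hpm d₂ 0 (by norm_num)
      rwa [pow_zero, mul_one] at this
  · rw [hpow]
    refine ⟨Ax, ?_, by linear_combination y₀ ^ 3 * hzt⟩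
    rw [hAx']
    refine Submodule.add_mem _ (Submodule.add_mem _ (Submodule.add_mem _ (hxm 3 le_rfl)
      (hpm _ 2 (by norm_num))) ?_) ?_
    · have := hpm c₁ 1 (by norm_num)
      rwa [pow_one] at this
    · have := hpm d₁ 0 (by norm_num)
      rwa [pow_zero, mul_one] at this

end Pool.Agent.H187.FTTr2
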