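import Pool.Agent.H2.PD.StmChk

set_option autoImplicit false

/-!
# MP_fd4632_co: replacing a bit field of a natural number
-/

namespace Pool.Agent.H187.PDUpd

open Pool.Agent.H2.PD

theorem sc_eq (s e : ℕ) : sc s e = s / 16777216 / 65536 ^ e % 65536 := by
  have h1 : sc s e = (s >>> (24 + 16 * e)) &&& (2 ^ 16 - 1) := rfl
  rw [h1, Nat.and_two_pow_sub_one_eq_mod, Nat.shiftRight_eq_div_pow, pow_add, pow_mul,
    ← Nat.div_div_eq_div_mul]
  norm_num

theorem upd_eq (s e c n m : ℕ) : upd s e c n m =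
    s - c * (16777216 * 65536 ^ e) - s % 16777216 + n * (16777216 * 65536 ^ e) + m := by
  have h1 : upd s e c n m = s - c <<< (24 + 16 * e) - (s &&& (2 ^ 24 - 1)) +
    n <<< (24 + 16 * e) + m := rfl
  have h2 : (2 : ℕ) ^ (24 + 16 * e) = 16777216 * 65536 ^ e := by
    rw [pow_add, pow_mul]; norm_num
  rw [h1, Nat.and_two_pow_sub_one_eq_mod, Nat.shiftLeft_eq, Nat.shiftLeft_eq, h2]

theorem upd_ok : S_upd := by
  intro hdig s e n m hn hm e'
  rw [sc_eq (upd s e (sc s e) n m), sc_eq s e', sc_eq s e, upd_eq]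
  set S := s / 16777216 with hS
  set P := 65536 ^ e with hP
  have hle : S / P % 65536 * P ≤ S :=
    (Nat.mul_le_mul_right P (Nat.mod_le _ _)).trans (Nat.div_mul_le_self S P)
  have hs : 16777216 * S + s % 16777216 = s := Nat.div_add_mod s 16777216
  obtain ⟨D, hD⟩ : ∃ D, S / P % 65536 * P = D := ⟨_, rfl⟩
  have e1 : S / P % 65536 * (16777216 * P) = 16777216 * D := by
    rw [← hD]; ring
  have e2 : n * (16777216 * P) = 16777216 * (n * P) := by ring
  rw [hD] at hle
  have e3 : s - S / P % 65536 * (16777216 * P) - s % 16777216 + n * (16777216 * P) + m =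
      16777216 * (S - D + n * P) + m := by
    rw [e1, e2]
    generalize n * P = Q
    omega
  rw [e3]
  have e4 : (16777216 * (S - D + n * P) + m) / 16777216 = S - D + n * P := by
    omega
  rw [e4, ← hD]
  exact hdig S e n hn e'

end Pool.Agent.H187.PDUpd
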