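import Pool.Agent.H770.GS.TK
import Pool.Agent.H331.TF15

/-!
# TK7: numerical bound of an integral

Adaptation of `Pool.Agent.H331.TF15` to `ε ∈ [1/2, 9/8]`.
-/

set_option autoImplicit false

open MeasureTheory Set intervalIntegral Filter Topology

namespace Pool.Agent.H187.TK7

open Pool.Agent.H770.GS Pool.Agent.H331.TF15

/-! ## Taylor bounds -/

theorem exp5 {y : ℝ} (hy : 0 ≤ y) :
    1 - y + y ^ 2 / 2 - y ^ 3 / 6 + y ^ 4 / 24 - y ^ 5 / 120 ≤ Real.exp (-y) := by
  have h := nonneg_of_deriv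
    (f := fun y => Real.exp (-y) - (1 - 1 * y ^ (0 + 1) + 1 / 2 * y ^ (1 + 1) -
      1 / 6 * y ^ (2 + 1) + 1 / 24 * y ^ (3 + 1) - 1 / 120 * y ^ (4 + 1)))
    (f' := fun y => -Real.exp (-y) - (0 - 1 * (((0 : ℕ) + 1) * y ^ 0) +
      1 / 2 * (((1 : ℕ) + 1) * y ^ 1) - 1 / 6 * (((2 : ℕ) + 1) * y ^ 2) +
      1 / 24 * (((3 : ℕ) + 1) * y ^ 3) - 1 / 120 * (((4 : ℕ) + 1) * y ^ 4)))
    (fun x => (dexp x).sub ((((((hasDerivAt_const x (1 : ℝ)).sub (dpow 0 1 x)).add
      (dpow 1 (1 / 2) x)).sub (dpow 2 (1 / 6) x)).add (dpow 3 (1 / 24) x)).sub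
      (dpow 4 (1 / 120) x)))
    (fun x hx => by
      have := exp4 hx
      push_cast
      linarith) (by simp) hy
  simp only [zero_add, pow_one, Nat.reduceAdd] at h
  linarith

theorem exp6 {y : ℝ} (hy : 0 ≤ y) :
    Real.exp (-y) ≤ 1 - y + y ^ 2 / 2 - y ^ 3 / 6 + y ^ 4 / 24 - y ^ 5 / 120 + y ^ 6 / 720 := by
  have h := nonneg_of_deriv
    (f := fun y => (1 - 1 * y ^ (0 + 1) + 1 / 2 * y ^ (1 + 1) -
      1 / 6 * y ^ (2 + 1) + 1 / 24 * y ^ (3 + 1) - 1 / 120 * y ^ (4 + 1) +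
      1 / 720 * y ^ (5 + 1)) - Real.exp (-y))
    (f' := fun y => (0 - 1 * (((0 : ℕ) + 1) * y ^ 0) +
      1 / 2 * (((1 : ℕ) + 1) * y ^ 1) - 1 / 6 * (((2 : ℕ) + 1) * y ^ 2) +
      1 / 24 * (((3 : ℕ) + 1) * y ^ 3) - 1 / 120 * (((4 : ℕ) + 1) * y ^ 4) +
      1 / 720 * (((5 : ℕ) + 1) * y ^ 5)) - -Real.exp (-y))
    (fun x => (((((((hasDerivAt_const x (1 : ℝ)).sub (dpow 0 1 x)).add
      (dpow 1 (1 / 2) x)).sub (dpow 2 (1 / 6) x)).add (dpow 3 (1 / 24) x)).sub
      (dpow 4 (1 / 120) x)).add (dpow 5 (1 / 720) x)).sub (dexp x))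
    (fun x hx => by
      have := exp5 hx
      push_cast
      linarith) (by simp) hy
  simp only [zero_add, pow_one, Nat.reduceAdd] at h
  linarith

theorem cos6 {y : ℝ} (hy : 0 ≤ y) : 1 - y ^ 2 / 2 + y ^ 4 / 24 - y ^ 6 / 720 ≤ Real.cos y := by
  have h := nonneg_of_deriv
    (f := fun y => Real.cos y - (1 - 1 / 2 * y ^ (1 + 1) + 1 / 24 * y ^ (3 + 1) -
      1 / 720 * y ^ (5 + 1)))
    (f' := fun y => -Real.sin y - (0 - 1 / 2 * (((1 : ℕ) + 1) * y ^ 1) +
      1 / 24 * (((3 : ℕ) + 1) * y ^ 3) - 1 / 720 * (((5 : ℕ) + 1) * y ^ 5)))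
    (fun x => (Real.hasDerivAt_cos x).sub ((((hasDerivAt_const x (1 : ℝ)).sub
      (dpow 1 (1 / 2) x)).add (dpow 3 (1 / 24) x)).sub (dpow 5 (1 / 720) x)))
    (fun x hx => by
      have := sin5 hx
      push_cast
      linarith) (by simp) hy
  simp only [Nat.reduceAdd] at h
  linarith

theorem sin7 {y : ℝ} (hy : 0 ≤ y) :
    y - y ^ 3 / 6 + y ^ 5 / 120 - y ^ 7 / 5040 ≤ Real.sin y := by
  have h := nonneg_of_deriv
    (f := fun y => Real.sin y - (1 * y ^ (0 + 1) - 1 / 6 * y ^ (2 + 1) + 1 / 120 * y ^ (4 + 1) -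
      1 / 5040 * y ^ (6 + 1)))
    (f' := fun y => Real.cos y - (1 * (((0 : ℕ) + 1) * y ^ 0) - 1 / 6 * (((2 : ℕ) + 1) * y ^ 2) +
      1 / 120 * (((4 : ℕ) + 1) * y ^ 4) - 1 / 5040 * (((6 : ℕ) + 1) * y ^ 6)))
    (fun x => (Real.hasDerivAt_sin x).sub ((((dpow 0 1 x).sub (dpow 2 (1 / 6) x)).add
      (dpow 4 (1 / 120) x)).sub (dpow 6 (1 / 5040) x)))
    (fun x hx => by
      have := cos6 hx
      push_cast
      linarith) (by simp) hy
  simp only [zero_add, pow_one, Nat.reduceAdd] at h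
  linarith

theorem cos8 {y : ℝ} (hy : 0 ≤ y) :
    Real.cos y ≤ 1 - y ^ 2 / 2 + y ^ 4 / 24 - y ^ 6 / 720 + y ^ 8 / 40320 := by
  have h := nonneg_of_deriv
    (f := fun y => (1 - 1 / 2 * y ^ (1 + 1) + 1 / 24 * y ^ (3 + 1) -
      1 / 720 * y ^ (5 + 1) + 1 / 40320 * y ^ (7 + 1)) - Real.cos y)
    (f' := fun y => (0 - 1 / 2 * (((1 : ℕ) + 1) * y ^ 1) +
      1 / 24 * (((3 : ℕ) + 1) * y ^ 3) - 1 / 720 * (((5 : ℕ) + 1) * y ^ 5) +
      1 / 40320 * (((7 : ℕ) + 1) * y ^ 7)) - -Real.sin y)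
    (fun x => (((((hasDerivAt_const x (1 : ℝ)).sub
      (dpow 1 (1 / 2) x)).add (dpow 3 (1 / 24) x)).sub (dpow 5 (1 / 720) x)).add
      (dpow 7 (1 / 40320) x)).sub (Real.hasDerivAt_cos x))
    (fun x hx => by
      have := sin7 hx
      push_cast
      linarith) (by simp) hy
  simp only [Nat.reduceAdd] at h
  linarith

theorem sin9 {y : ℝ} (hy : 0 ≤ y) :
    Real.sin y ≤ y - y ^ 3 / 6 + y ^ 5 / 120 - y ^ 7 / 5040 + y ^ 9 / 362880 := by
  have h := nonneg_of_deriv
    (f := fun y => (1 * y ^ (0 + 1) - 1 / 6 * y ^ (2 + 1) + 1 / 120 * y ^ (4 + 1) -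
      1 / 5040 * y ^ (6 + 1) + 1 / 362880 * y ^ (8 + 1)) - Real.sin y)
    (f' := fun y => (1 * (((0 : ℕ) + 1) * y ^ 0) - 1 / 6 * (((2 : ℕ) + 1) * y ^ 2) +
      1 / 120 * (((4 : ℕ) + 1) * y ^ 4) - 1 / 5040 * (((6 : ℕ) + 1) * y ^ 6) +
      1 / 362880 * (((8 : ℕ) + 1) * y ^ 8)) - Real.cos y)
    (fun x => (((((dpow 0 1 x).sub (dpow 2 (1 / 6) x)).add
      (dpow 4 (1 / 120) x)).sub (dpow 6 (1 / 5040) x)).add (dpow 8 (1 / 362880) x)).sub
      (Real.hasDerivAt_sin x))
    (fun x hx => by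
      have := cos8 hx
      push_cast
      linarith) (by simp) hy
  simp only [zero_add, pow_one, Nat.reduceAdd] at h
  linarith

/-! ## Certificates -/

noncomputable def LK (ε x : ℝ) : List ℝ := [0,
  0,
  1,
  0,
  -(1 / 6) * x ^ 2 - 1 * ε,
  0,
  (1 / 120) * x ^ 4 + (1 / 6) * ε * x ^ 2 + (1 / 2) * ε ^ 2,
  0,
  -(1 / 5040) * x ^ 6 - (1 / 120) * ε * x ^ 4 - (1 / 12) * ε ^ 2 * x ^ 2 - (1 / 6) * ε ^ 3,
  0,
  (1 / 362880) * x ^ 8 + (1 / 5040) * ε * x ^ 6 + (1 / 240) * ε ^ 2 * x ^ 4 + (1 / 36) * ε ^ 3 * x ^ 2 + (1 / 24) * ε ^ 4,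
  0,
  -(1 / 362880) * ε * x ^ 8 - (1 / 10080) * ε ^ 2 * x ^ 6 - (1 / 720) * ε ^ 3 * x ^ 4 - (1 / 144) * ε ^ 4 * x ^ 2,
  0,
  (1 / 725760) * ε ^ 2 * x ^ 8 + (1 / 30240) * ε ^ 3 * x ^ 6 + (1 / 2880) * ε ^ 4 * x ^ 4,
  0,
  -(1 / 2177280) * ε ^ 3 * x ^ 8 - (1 / 120960) * ε ^ 4 * x ^ 6,
  0,
  (1 / 8709120) * ε ^ 4 * x ^ 8]

noncomputable def S8 (x : ℝ) : ℝ := 1 - (1 / 6) * x ^ 2 + (1 / 120) * x ^ 4 - (1 / 5040) * x ^ 6 + (1 / 362880) * x ^ 8

noncomputable def CK (ε x : ℝ) : ℝ := ((1 / 3) - (1 / 30) * x ^ 2 + (1 / 840) * x ^ 4 - (1 / 45360) * x ^ 6 + (1 / 3991680) * x ^ 8) - 1 * ε * ((1 / 5) - (1 / 42) * x ^ 2 + (1 / 1080) * x ^ 4 - (1 / 55440) * x ^ 6 + (1 / 4717440) * x ^ 8) + (1 / 2) * ε ^ 2 * ((1 / 7) - (1 / 54) * x ^ 2 + (1 / 1320) * x ^ 4 - (1 / 65520) * x ^ 6 + (1 / 5443200) * x ^ 8) - (1 / 6) * ε ^ 3 * ((1 / 9) - (1 / 66) * x ^ 2 + (1 / 1560) * x ^ 4 - (1 / 75600) * x ^ 6 + (1 / 6168960) * x ^ 8) + (1 / 24) * ε ^ 4 * ((1 / 11) - (1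 / 78) * x ^ 2 + (1 / 1800) * x ^ 4 - (1 / 85680) * x ^ 6 + (1 / 6894720) * x ^ 8)

noncomputable def IAr (ε : ℝ) : ℝ := (81627 / 125000000) + (47931 / 62500000) * ε + (125533 / 500000000) * ε ^ 2 - (4887 / 100000000) * ε ^ 3 - (108679 / 1000000000) * ε ^ 4 + (34561 / 1000000000) * ε ^ 5 - (1431 / 500000000) * ε ^ 6

noncomputable def pP (ε : ℝ) : ℝ := (47891 / 50000) - (40693 / 50000) * ε + (5619 / 25000) * ε ^ 2
noncomputable def zL (ε : ℝ) : ℝ := (19839 / 20000) - (30229 / 100000) * ε + (1127 / 20000) * ε ^ 2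
noncomputable def zU (ε : ℝ) : ℝ := (99461 / 100000) - (7681 / 25000) * ε + (379 / 6250) * ε ^ 2
noncomputable def a0 (t : ℝ) : ℝ := (921 / 100000) + (8017 / 25000) * t + (7449 / 100000) * t ^ 2
noncomputable def a1 (t : ℝ) : ℝ := (873 / 5000) - (12019 / 100000) * t - (5751 / 100000) * t ^ 2
noncomputable def a2 (t : ℝ) : ℝ := -(4141 / 100000) + (291 / 12500) * t + (719 / 50000) * t ^ 2
noncomputable def AA (ε t : ℝ) : ℝ := a0 t + a1 t * ε + a2 t * ε ^ 2

theorem cZL {ε : ℝ} (h0 : 1 / 2 ≤ ε) (h1 : ε ≤ 9 / 8) :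
    0 ≤ (1 - (1 / 3) * ε + (1 / 10) * ε ^ 2 - (1 / 42) * ε ^ 3 + (1 / 216) * ε ^ 4 - (1 / 1320) * ε ^ 5) - ((19839 / 20000) - (30229 / 100000) * ε + (1127 / 20000) * ε ^ 2) := by
  have key : ∀ x y : ℝ, 0 ≤ x → 0 ≤ y → 0 ≤
      (155477632 / 20302734375) * y ^ 5 +
      (2030176 / 116015625) * x * y ^ 4 +
      (22778464 / 451171875) * x ^ 2 * y ^ 3 +
      (36522148 / 451171875) * x ^ 3 * y ^ 2 +
      (41977907 / 902343750) * x ^ 4 * y +
      (32845363 / 6015625000) * x ^ 5 := by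
    intro x y hx hy
    positivity
  have h := key (ε - (1 / 2)) ((9 / 8) - ε) (by linarith) (by linarith)
  refine h.trans (le_of_eq ?_)
  ring


theorem cZU {ε : ℝ} (h0 : 1 / 2 ≤ ε) (h1 : ε ≤ 9 / 8) :
    0 ≤ ((99461 / 100000) - (7681 / 25000) * ε + (379 / 6250) * ε ^ 2) - (1 - (1 / 3) * ε + (1 / 10) * ε ^ 2 - (1 / 42) * ε ^ 3 + (1 / 216) * ε ^ 4) := by
  have key : ∀ x y : ℝ, 0 ≤ x → 0 ≤ y → 0 ≤
      (243616 / 73828125) * y ^ 4 +
      (184736 / 8203125) * x * y ^ 3 +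
      (56468 / 2734375) * x ^ 2 * y ^ 2 +
      (11978 / 1171875) * x ^ 3 * y +
      (91019 / 21875000) * x ^ 4 := by
    intro x y hx hy
    positivity
  have h := key (ε - (1 / 2)) ((9 / 8) - ε) (by linarith) (by linarith)
  refine h.trans (le_of_eq ?_)
  ring


theorem cP {ε : ℝ} (h0 : 1 / 2 ≤ ε) (h1 : ε ≤ 9 / 8) :
    0 ≤ ((47891 / 50000) - (40693 / 50000) * ε + (5619 / 25000) * ε ^ 2) - (1 - 1 * ε + (1 / 2) * ε ^ 2 - (1 / 6) * ε ^ 3 + (1 / 24) * ε ^ 4 - (1 / 120) * ε ^ 5 + (1 / 720) * ε ^ 6) := by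
  have key : ∀ x y : ℝ, 0 ≤ x → 0 ≤ y → 0 ≤
      (4039424 / 439453125) * y ^ 6 +
      (34821248 / 146484375) * x * y ^ 5 +
      (15685744 / 29296875) * x ^ 2 * y ^ 4 +
      (10569712 / 29296875) * x ^ 3 * y ^ 3 +
      (414873 / 9765625) * x ^ 4 * y ^ 2 +
      (1709707 / 97656250) * x ^ 5 * y +
      (21507351 / 781250000) * x ^ 6 := by
    intro x y hx hy
    positivity
  have h := key (ε - (1 / 2)) ((9 / 8) - ε) (by linarith) (by linarith)
  refine h.trans (le_of_eq ?_)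
  ring


theorem cF {ε : ℝ} (h0 : 1 / 2 ≤ ε) (h1 : ε ≤ 9 / 8) :
    0 ≤ ((19839 / 20000) - (30229 / 100000) * ε + (1127 / 20000) * ε ^ 2) ^ 3 * (17 / 10000 + 32 / 10000 * ε ^ 2) -
      (((81627 / 125000000) + (47931 / 62500000) * ε + (125533 / 500000000) * ε ^ 2 - (4887 / 100000000) * ε ^ 3 - (108679 / 1000000000) * ε ^ 4 + (34561 / 1000000000) * ε ^ 5 - (1431 / 500000000) * ε ^ 6) +
      (((47891 / 50000) - (40693 / 50000) * ε + (5619 / 25000) * ε ^ 2) ^ 3 * (38279 / 50000000) +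
      3 * ((47891 / 50000) - (40693 / 50000) * ε + (5619 / 25000) * ε ^ 2) ^ 2 * (107 / 50 * ε * ((99461 / 100000) - (7681 / 25000) * ε + (379 / 6250) * ε ^ 2)) * (12071 / 100000000) +
      3 * ((47891 / 50000) - (40693 / 50000) * ε + (5619 / 25000) * ε ^ 2) * (107 / 50 * ε * ((99461 / 100000) - (7681 / 25000) * ε + (379 / 6250) * ε ^ 2)) ^ 2 * (1259 / 50000000) +
      (107 / 50 * ε * ((99461 / 100000) - (7681 / 25000) * ε + (379 / 6250) * ε ^ 2)) ^ 3 * (1191 / 25000000))) := by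
  have key : ∀ x y : ℝ, 0 ≤ x → 0 ≤ y → 0 ≤
      (21190479189817899653269 / 2910383045673370361328125) * y ^ 9 +
      (741916412751182952447199 / 11641532182693481445312500) * x * y ^ 8 +
      (11881407313401719710670819 / 46566128730773925781250000) * x ^ 2 * y ^ 7 +
      (112133262262836572177357449 / 186264514923095703125000000) * x ^ 3 * y ^ 6 +
      (21247938346522899383916817 / 23283064365386962890625000) * x ^ 4 * y ^ 5 +
      (683502303369733642453732889 / 745058059692382812500000000) * x ^ 5 * y ^ 4 +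
      (1821332300525841979855212269 / 2980232238769531250000000000) * x ^ 6 * y ^ 3 +
      (388465697680776496489567033 / 1490116119384765625000000000) * x ^ 7 * y ^ 2 +
      (386609875733111298675541743 / 5960464477539062500000000000) * x ^ 8 * y +
      (85914994058165351650056979 / 11920928955078125000000000000) * x ^ 9 := by
    intro x y hx hy
    positivity
  have h := key (ε - (1 / 2)) ((9 / 8) - ε) (by linarith) (by linarith)
  refine h.trans (le_of_eq ?_)
  ring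


theorem cA0 {ε t : ℝ} (h0 : 1 / 2 ≤ ε) (h1 : ε ≤ 9 / 8) (t0 : 0 ≤ t) (t1 : t ≤ 927 / 1250) :
    0 ≤ (((921 / 100000) + (8017 / 25000) * t + (7449 / 100000) * t ^ 2) + ((873 / 5000) - (12019 / 100000) * t - (5751 / 100000) * t ^ 2) * ε + (-(4141 / 100000) + (291 / 12500) * t + (719 / 50000) * t ^ 2) * ε ^ 2) := by
  have key : ∀ x y s r : ℝ, 0 ≤ x → 0 ≤ y → 0 ≤ s → 0 ≤ r → 0 ≤
      (344630 / 859329) * y ^ 2 * r ^ 2 +
      (184940474 / 107416125) * y ^ 2 * s * r +
      (97141717414 / 67135078125) * y ^ 2 * s ^ 2 +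
      (340745 / 286443) * x * y * r ^ 2 +
      (287110537 / 71610750) * x * y * s * r +
      (268836588559 / 89513437500) * x * y * s ^ 2 +
      (1634405 / 2291544) * x ^ 2 * r ^ 2 +
      (310562017 / 143221500) * x ^ 2 * s * r +
      (546686247203 / 358053750000) * x ^ 2 * s ^ 2 := by
    intro x y s r hx hy hs hr
    positivity
  have h := key (ε - (1 / 2)) ((9 / 8) - ε) (t - 0) ((927 / 1250) - t) (by linarith) (by linarith) (by linarith) (by linarith)
  refine h.trans (le_of_eq ?_)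
  ring


theorem cA {ε t : ℝ} (h0 : 1 / 2 ≤ ε) (h1 : ε ≤ 9 / 8) (t0 : 0 ≤ t) (t1 : t ≤ 927 / 1250) :
    0 ≤ (((921 / 100000) + (8017 / 25000) * t + (7449 / 100000) * t ^ 2) + ((873 / 5000) - (12019 / 100000) * t - (5751 / 100000) * t ^ 2) * ε + (-(4141 / 100000) + (291 / 12500) * t + (719 / 50000) * t ^ 2) * ε ^ 2) -
    (((47891 / 50000) - (40693 / 50000) * ε + (5619 / 25000) * ε ^ 2) * (1 - (1 / 6) * (31416 / 10000 - t) ^ 2 + (1 / 120) * (31416 / 10000 - t) ^ 4 - (1 / 5040) * (31416 / 10000 - t) ^ 6 + (1 / 362880) * (31416 / 10000 - t) ^ 8) +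
    2 * ε * (((1 / 3) - (1 / 30) * (31416 / 10000 - t) ^ 2 + (1 / 840) * (31416 / 10000 - t) ^ 4 - (1 / 45360) * (31416 / 10000 - t) ^ 6 + (1 / 3991680) * (31416 / 10000 - t) ^ 8) - 1 * ε * ((1 / 5) - (1 / 42) * (31416 / 10000 - t) ^ 2 + (1 / 1080) * (31416 / 10000 - t) ^ 4 - (1 / 55440) * (31416 / 10000 - t) ^ 6 + (1 / 4717440) * (31416 / 10000 - t) ^ 8) + (1 / 2) * ε ^ 2 * ((1 / 7) - (1 / 54) * (31416 / 10000 - t) ^ 2 + (1 / 1320) * (31416 / 10000 - t) ^ 4 - (1 / 65520) * (31416 / 10000 - t) ^ 6 + (1 / 5443200) * (31416 / 10000 - t) ^ 8) - (1 / 6) * ε ^ 3 * ((1 / 9) - (1 / 66) * (31416 / 10000 - t) ^ 2 + (1 / 1560) * (31416 / 10000 - t) ^ 4 - (1 / 75600) * (31416 / 10000 - t) ^ 6 + (1 / 6168960) * (31416 / 10000 - t) ^ 8) + (1 / 24) * ε ^ 4 * ((1 / 11) - (1 / 78) * (31416 / 10000 - t) ^ 2 + (1 / 1800) * (31416 / 10000 - t) ^ 4 - (1 / 85680) * (31416 / 10000 - t) ^ 6 + (1 / 6894720) * (31416 / 10000 - t) ^ 8))) := by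
  have key : ∀ x y s r : ℝ, 0 ≤ x → 0 ≤ y → 0 ≤ s → 0 ≤ r → 0 ≤
      (1397263712994637192699311883203180874 / 13672859889047891561500934011376953125) * y ^ 5 * r ^ 8 +
      (158819107927340241444315029199042304 / 109382879112383132492007472091015625) * y ^ 5 * s * r ^ 7 +
      (4978082839410962068974490221986368 / 875063032899065059936059776728125) * y ^ 5 * s ^ 2 * r ^ 6 +
      (6597585184589536955096446733312 / 636409478472047316317134383075) * y ^ 5 * s ^ 3 * r ^ 5 +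
      (2862581973124440629074565542400 / 280020170527700819179539128553) * y ^ 5 * s ^ 4 * r ^ 4 +
      (1657614750251665518343290880000 / 280020170527700819179539128553) * y ^ 5 * s ^ 5 * r ^ 3 +
      (871980311678778843725440000000 / 366180222997762609696320398877) * y ^ 5 * s ^ 6 * r ^ 2 +
      (4035873930666008074880000000000 / 4760342898970913926052165185401) * y ^ 5 * s ^ 7 * r +
      (910098149401999840000000000000 / 4760342898970913926052165185401) * y ^ 5 * s ^ 8 +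
      (256534684327612618896985511962395679 / 781306279374165232085767657792968750) * x * y ^ 4 * r ^ 8 +
      (16522480261310328916985560337225792 / 3125225117496660928343070631171875) * x * y ^ 4 * s * r ^ 7 +
      (3552820093491847901841575331418448 / 175012606579813011987211955345625) * x * y ^ 4 * s ^ 2 * r ^ 6 +
      (47360490086195193266100402052352 / 1400100852638504095897695642765) * x * y ^ 4 * s ^ 3 * r ^ 5 +
      (7543158828840133111644740432000 / 280020170527700819179539128553) * x * y ^ 4 * s ^ 4 * r ^ 4 +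
      (2496540368594297101103718400000 / 280020170527700819179539128553) * x * y ^ 4 * s ^ 5 * r ^ 3 +
      (22507716035810599887200000000 / 33289111181614782699665490807) * x * y ^ 4 * s ^ 6 * r ^ 2 +
      (3089206555333884838400000000000 / 4760342898970913926052165185401) * x * y ^ 4 * s ^ 7 * r +
      (2070662576910956950000000000000 / 4760342898970913926052165185401) * x * y ^ 4 * s ^ 8 +
      (1003393264881262848825398868189096883 / 1215365323470923694355638578789062500) * x ^ 2 * y ^ 3 * r ^ 8 +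
      (28498060195364285279006007819143392 / 2430730646941847388711277157578125) * x ^ 2 * y ^ 3 * s * r ^ 7 +
      (875617782411107584691221932178264 / 19445845175534779109690217260625) * x ^ 2 * y ^ 3 * s ^ 2 * r ^ 6 +
      (12267240415354820251627247691136 / 155566761404278232877521738085) * x ^ 2 * y ^ 3 * s ^ 3 * r ^ 5 +
      (2236102187869571476030003576000 / 31113352280855646575504347617) * x ^ 2 * y ^ 3 * s ^ 4 * r ^ 4 +
      (1105013640031157374707891200000 / 31113352280855646575504347617) * x ^ 2 * y ^ 3 * s ^ 5 * r ^ 3 +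
      (552248406579032685194800000000 / 48084271706776908343961264499) * x ^ 2 * y ^ 3 * s ^ 6 * r ^ 2 +
      (2294432430792540176200000000000 / 528926988774545991783573909489) * x ^ 2 * y ^ 3 * s ^ 7 * r +
      (647426591664123912500000000000 / 528926988774545991783573909489) * x ^ 2 * y ^ 3 * s ^ 8 +
      (5500287386163079443103255953782493757 / 4861461293883694777422554315156250000) * x ^ 3 * y ^ 2 * r ^ 8 +
      (34540325748782608647163833268871992 / 2430730646941847388711277157578125) * x ^ 3 * y ^ 2 * s * r ^ 7 +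
      (1067326766916281317196737889575714 / 19445845175534779109690217260625) * x ^ 3 * y ^ 2 * s ^ 2 * r ^ 6 +
      (15918580823105969011151704219936 / 155566761404278232877521738085) * x ^ 3 * y ^ 2 * s ^ 3 * r ^ 5 +
      (3326118323514315886662440626000 / 31113352280855646575504347617) * x ^ 3 * y ^ 2 * s ^ 4 * r ^ 4 +
      (2122510782065659560424851200000 / 31113352280855646575504347617) * x ^ 3 * y ^ 2 * s ^ 5 * r ^ 3 +
      (15798367788057202291445300000000 / 528926988774545991783573909489) * x ^ 3 * y ^ 2 * s ^ 6 * r ^ 2 +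
      (753535797441106501600000000000 / 75560998396363713111939129927) * x ^ 3 * y ^ 2 * s ^ 7 * r +
      (1024410037098638975000000000000 / 528926988774545991783573909489) * x ^ 3 * y ^ 2 * s ^ 8 +
      (24570107248161693189672375906404278013 / 38891690351069558219380434521250000000) * x ^ 4 * y * r ^ 8 +
      (18370212055485418431189449668065391 / 2430730646941847388711277157578125) * x ^ 4 * y * s * r ^ 7 +
      (29499244824148964971809849384869 / 1010173775352456057646245052500) * x ^ 4 * y * s ^ 2 * r ^ 6 +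
      (1236649912693094835489339031804 / 22223823057754033268217391155) * x ^ 4 * y * s ^ 3 * r ^ 5 +
      (145232693867082234818267127250 / 2393334790835049736577257509) * x ^ 4 * y * s ^ 4 * r ^ 4 +
      (1282971908150367896157797600000 / 31113352280855646575504347617) * x ^ 4 * y * s ^ 5 * r ^ 3 +
      (10064423138632354951210962500000 / 528926988774545991783573909489) * x ^ 4 * y * s ^ 6 * r ^ 2 +
      (3289341232261047680725000000000 / 528926988774545991783573909489) * x ^ 4 * y * s ^ 7 * r +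
      (588649203293275948437500000000 / 528926988774545991783573909489) * x ^ 4 * y * s ^ 8 +
      (23831827662255756816400333000545492319 / 259277935673797054795869563475000000000) * x ^ 5 * r ^ 8 +
      (18698086996882472037364171313962133 / 16204870979612315924741847717187500) * x ^ 5 * s * r ^ 7 +
      (2265121713012441025039591163227019 / 518555871347594109591739126950000) * x ^ 5 * s ^ 2 * r ^ 6 +
      (2031127864930854674825742503891 / 259277935673797054795869563475) * x ^ 5 * s ^ 3 * r ^ 5 +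
      (12181754823725533196899339175 / 1595556527223366491051505006) * x ^ 5 * s ^ 4 * r ^ 4 +
      (44961632254507503814962440000 / 10371117426951882191834782539) * x ^ 5 * s ^ 5 * r ^ 3 +
      (26701046043100990267088125000 / 16028090568925636114653754833) * x ^ 5 * s ^ 6 * r ^ 2 +
      (99398224204930184908750000000 / 176308996258181997261191303163) * x ^ 5 * s ^ 7 * r +
      (186584783015217109375000000 / 1481588203850268884547826077) * x ^ 5 * s ^ 8 := by
    intro x y s r hx hy hs hr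
    positivity
  have h := key (ε - (1 / 2)) ((9 / 8) - ε) (t - 0) ((927 / 1250) - t) (by linarith) (by linarith) (by linarith) (by linarith)
  refine h.trans (le_of_eq ?_)
  ring


noncomputable def LC0 : List ℝ := [158589682083 / 2000000000000000000, 20833619209047 / 2500000000000000000, 2956292195237217 / 10000000000000000000, 36686704293924073 / 10000000000000000000, 46469043440638101 / 10000000000000000000, 30015678958305767 / 10000000000000000000, 18159138126235411 / 10000000000000000000, 7231043019999123 / 10000000000000000000, 87122136594519 / 625000000000000000, 99611840703609 / 10000000000000000000]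

noncomputable def LC1 : List ℝ := [450973265337 / 100000000000000000, 627641148439197 / 2000000000000000000, 55222802920985589 / 10000000000000000000, 2101567302870369 / 1000000000000000000, -(27203227136499303 / 10000000000000000000), -(5554127378843133 / 2500000000000000000), -(19277113517914989 / 10000000000000000000), -(5533802076687129 / 5000000000000000000), -(2717545539151989 / 10000000000000000000), -(230715946792773 / 10000000000000000000)]

noncomputable def LC2 : List ℝ := [168848756389971 / 2000000000000000000, 887218771631643 / 312500000000000000, -(28946017204476987 / 10000000000000000000), -(35649729328406793 / 10000000000000000000), 1168469789709981 / 2000000000000000000, 6859983633748149 / 10000000000000000000, 8564554750475673 / 10000000000000000000, 7546207940368491 / 10000000000000000000, 235585012046103 / 1000000000000000000, 235813248865701 / 10000000000000000000]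

noncomputable def LC3 : List ℝ := [24985081952523 / 50000000000000000, -(2157968721413097 / 1000000000000000000), 1151753512073241 / 5000000000000000000, 19197813020723813 / 10000000000000000000, 1261087218838221 / 10000000000000000000, -(473214640471409 / 10000000000000000000), -(765016185889787 / 5000000000000000000), -(2833788522608439 / 10000000000000000000), -(1146810789644481 / 10000000000000000000), -(134917870482243 / 10000000000000000000)]

noncomputable def LC4 : List ℝ := [-(759177741814191 / 2000000000000000000), 1662547443109221 / 2500000000000000000, 594739083880977 / 2500000000000000000, -(1033697131411779 / 2000000000000000000), -(855545391169407 / 10000000000000000000), -(36600267623133 / 2500000000000000000), -(3628445570559 / 1250000000000000000), 624853808820459 / 10000000000000000000, 83127267839037 / 2500000000000000000, 22761407696931 / 5000000000000000000]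

noncomputable def LC5 : List ℝ := [9116790968817 / 100000000000000000, -(214119847237803 / 2000000000000000000), -(761255960441571 / 10000000000000000000), 190684997702613 / 2500000000000000000, 196045242692559 / 10000000000000000000, 46210735260279 / 10000000000000000000, 1756530119073 / 312500000000000000, -(19407474276009 / 2500000000000000000), -(13770976706373 / 2500000000000000000), -(2149509880053 / 2500000000000000000)]

noncomputable def LC6 : List ℝ := [-(14414903169863 / 2000000000000000000), 4721446110897 / 625000000000000000, 32945377514681 / 5000000000000000000, -(10656980410001 / 2000000000000000000), -(4368705799893 / 2500000000000000000), -(1790371688763 / 5000000000000000000), -(653574019393 / 1250000000000000000), 256266701157 / 500000000000000000, 16615643501 / 39062500000000000, 89578485119 / 1250000000000000000]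

/-! ## Bounds of the parameters -/

theorem p_up {ε : ℝ} (h0 : 1 / 2 ≤ ε) (h1 : ε ≤ 9 / 8) : Real.exp (-ε) ≤ pP ε := by
  have h := exp6 (y := ε) (by linarith)
  have h2 := cP h0 h1
  unfold pP
  linarith

theorem z_up {ε : ℝ} (h0 : 1 / 2 ≤ ε) (h1' : ε ≤ 9 / 8) : zt ε ≤ zU ε := by
  have h1 : zt ε ≤ ∫ u in (0 : ℝ)..1,
      pe [1, 0, -ε, 0, ε ^ 2 / 2, 0, -(ε ^ 3 / 6), 0, ε ^ 4 / 24] u := by
    unfold zt
    refine intervalIntegral.integral_mono_on zero_le_one
      (Continuous.intervalIntegrable (by fun_prop) _ _) ((pe_cont _).intervalIntegrable _ _)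
      fun u _ => ?_
    have := exp4 (y := ε * u ^ 2) (by positivity)
    simp only [pe]
    linarith
  rw [int_pe0] at h1
  simp only [pI] at h1
  push_cast at h1
  have h2 := cZU h0 h1'
  unfold zU
  linarith

theorem z_lo {ε : ℝ} (h0 : 1 / 2 ≤ ε) (h1' : ε ≤ 9 / 8) : zL ε ≤ zt ε := by
  have h1 : ∫ u in (0 : ℝ)..1,
      pe [1, 0, -ε, 0, ε ^ 2 / 2, 0, -(ε ^ 3 / 6), 0, ε ^ 4 / 24, 0, -(ε ^ 5 / 120)] u ≤ zt ε := by
    unfold zt
    refine intervalIntegral.integral_mono_on zero_le_one ((pe_cont _).intervalIntegrable _ _)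
      (Continuous.intervalIntegrable (by fun_prop) _ _) fun u _ => ?_
    have := exp5 (y := ε * u ^ 2) (by positivity)
    simp only [pe]
    linarith
  rw [int_pe0] at h1
  simp only [pI] at h1
  push_cast at h1
  have h2 := cZL h0 h1'
  unfold zL
  linarith

/-! ## The region `[12/5, π]` -/

theorem sinc_S8 {y : ℝ} (h0 : 0 ≤ y) : Real.sinc y ≤ S8 y := by
  rcases eq_or_lt_of_le h0 with h | h
  · rw [← h, Real.sinc_zero]
    norm_num [S8]
  · rw [Real.sinc_of_ne_zero h.ne', div_le_iff₀ h]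
    have := sin9 h0
    unfold S8
    linarith

theorem ck_nn {ε x : ℝ} (hx : 0 < x) (hx' : x ≤ Real.pi) : 0 ≤ ck ε x := by
  have hs : ∀ u ∈ Icc (0 : ℝ) 1, 0 ≤ Real.sinc (u * x) := fun u hu =>
    sinc_nn (mul_nonneg hu.1 hx.le) ((mul_le_of_le_one_left hx.le hu.2).trans hx')
  unfold ck
  refine intervalIntegral.integral_nonneg zero_le_one fun u hu => ?_
  exact mul_nonneg (mul_nonneg (sq_nonneg _) (Real.exp_pos _).le) (hs u hu)

theorem ck_up {ε x : ℝ} (hε : 0 ≤ ε) (hx : 0 < x) (hx' : x ≤ Real.pi) : ck ε x ≤ CK ε x := by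
  have hs : ∀ u ∈ Icc (0 : ℝ) 1, 0 ≤ Real.sinc (u * x) := fun u hu =>
    sinc_nn (mul_nonneg hu.1 hx.le) ((mul_le_of_le_one_left hx.le hu.2).trans hx')
  have h1 : ck ε x ≤ ∫ u in (0 : ℝ)..1, pe (LK ε x) u := by
    unfold ck
    refine intervalIntegral.integral_mono_on zero_le_one
      (Continuous.intervalIntegrable (by have := Real.continuous_sinc; fun_prop) _ _)
      ((pe_cont _).intervalIntegrable _ _) fun u hu => ?_
    have a1 := exp4 (y := ε * u ^ 2) (by positivity)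
    have a2 := sinc_S8 (y := u * x) (mul_nonneg hu.1 hx.le)
    have a3 := (Real.exp_pos (-(ε * u ^ 2))).le
    have e1 : pe (LK ε x) u = u ^ 2 * ((1 - ε * u ^ 2 + (ε * u ^ 2) ^ 2 / 2 -
        (ε * u ^ 2) ^ 3 / 6 + (ε * u ^ 2) ^ 4 / 24) * S8 (u * x)) := by
      simp only [pe, LK, S8]
      ring
    rw [e1, mul_assoc]
    refine mul_le_mul_of_nonneg_left ?_ (sq_nonneg u)
    exact mul_le_mul a1 a2 (hs u hu) (a3.trans a1)
  rw [int_pe0] at h1
  refine h1.trans (le_of_eq ?_)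
  simp only [pI, LK, CK]
  push_cast
  ring

theorem regA_pt' {ε x : ℝ} (e0 : 1 / 2 ≤ ε) (e1 : ε ≤ 9 / 8) (hT : S_TF2) (h0 : 12 / 5 ≤ x)
    (h1 : x ≤ Real.pi) : zt ε * |cf ε x| ≤ AA ε (31416 / 10000 - x) := by
  have hε : 0 < ε := by linarith
  obtain ⟨hz, hA, -⟩ := hT ε hε
  have hE := (Real.exp_pos (-ε)).le
  have hx0 : 0 < x := by linarith
  have hp2 : Real.pi < 3.1416 := by
    have := Real.pi_lt_d6
    linarith
  obtain ⟨t, ht⟩ : ∃ t : ℝ, t = 31416 / 10000 - x := ⟨_, rfl⟩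
  have hxt : x = 31416 / 10000 - t := by linarith
  have ht0 : 0 ≤ t := by
    rw [ht]
    norm_num at hp2 ⊢
    linarith
  have ht1 : t ≤ 927 / 1250 := by
    rw [ht]
    linarith
  have hC := cA e0 e1 ht0 ht1
  rw [← hxt] at hC
  rw [← ht]
  have hm : zt ε * |cf ε x| = |zt ε * cf ε x| := by rw [abs_mul, abs_of_pos hz]
  have s0 := sinc_nn hx0.le h1
  have c0 := ck_nn (ε := ε) hx0 h1
  rw [hm, hA x, abs_of_nonneg (by positivity)]
  have s1 := sinc_S8 hx0.le
  have c1 := ck_up hε.le hx0 h1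
  have p1 := p_up e0 e1
  have b1 : Real.exp (-ε) * Real.sinc x ≤ pP ε * S8 x := mul_le_mul p1 s1 s0 (hE.trans p1)
  have b2 : 2 * ε * ck ε x ≤ 2 * ε * CK ε x := mul_le_mul_of_nonneg_left c1 (by linarith)
  unfold pP S8 at b1
  unfold CK at b2
  unfold AA a0 a1 a2
  linarith

theorem regA_int' {ε : ℝ} (hε : 0 ≤ ε) :
    ∫ t in (0 : ℝ)..(927 / 1250), AA ε t ^ 3 * wA t ≤ IAr ε := by
  have h1 : (fun t : ℝ => AA ε t ^ 3 * wA t) = fun t =>
      pe LC0 t + ε * pe LC1 t + ε ^ 2 * pe LC2 t + ε ^ 3 * pe LC3 t + ε ^ 4 * pe LC4 t +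
        ε ^ 5 * pe LC5 t + ε ^ 6 * pe LC6 t := by
    funext t
    simp only [pe, AA, a0, a1, a2, wA, LC0, LC1, LC2, LC3, LC4, LC5, LC6]
    ring
  have c0 := pe_cont LC0
  have c1 := pe_cont LC1
  have c2 := pe_cont LC2
  have c3 := pe_cont LC3
  have c4 := pe_cont LC4
  have c5 := pe_cont LC5
  have c6 := pe_cont LC6
  rw [h1, intervalIntegral.integral_add (Continuous.intervalIntegrable (by fun_prop) _ _)
    (Continuous.intervalIntegrable (by fun_prop) _ _),
    intervalIntegral.integral_add (Continuous.intervalIntegrable (by fun_prop) _ _)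
    (Continuous.intervalIntegrable (by fun_prop) _ _),
    intervalIntegral.integral_add (Continuous.intervalIntegrable (by fun_prop) _ _)
    (Continuous.intervalIntegrable (by fun_prop) _ _),
    intervalIntegral.integral_add (Continuous.intervalIntegrable (by fun_prop) _ _)
    (Continuous.intervalIntegrable (by fun_prop) _ _),
    intervalIntegral.integral_add (Continuous.intervalIntegrable (by fun_prop) _ _)
    (Continuous.intervalIntegrable (by fun_prop) _ _),
    intervalIntegral.integral_add (Continuous.intervalIntegrable (by fun_prop) _ _)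
    (Continuous.intervalIntegrable (by fun_prop) _ _),
    intervalIntegral.integral_const_mul, intervalIntegral.integral_const_mul,
    intervalIntegral.integral_const_mul, intervalIntegral.integral_const_mul,
    intervalIntegral.integral_const_mul, intervalIntegral.integral_const_mul,
    int_pe0, int_pe0, int_pe0, int_pe0, int_pe0, int_pe0, int_pe0]
  have k0 : (927 / 1250 : ℝ) * pI 0 LC0 (927 / 1250) ≤ (81627 / 125000000) := by
    norm_num [pI, LC0]
  have k1 : (927 / 1250 : ℝ) * pI 0 LC1 (927 / 1250) ≤ (47931 / 62500000) := by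
    norm_num [pI, LC1]
  have k2 : (927 / 1250 : ℝ) * pI 0 LC2 (927 / 1250) ≤ (125533 / 500000000) := by
    norm_num [pI, LC2]
  have k3 : (927 / 1250 : ℝ) * pI 0 LC3 (927 / 1250) ≤ -(4887 / 100000000) := by
    norm_num [pI, LC3]
  have k4 : (927 / 1250 : ℝ) * pI 0 LC4 (927 / 1250) ≤ -(108679 / 1000000000) := by
    norm_num [pI, LC4]
  have k5 : (927 / 1250 : ℝ) * pI 0 LC5 (927 / 1250) ≤ (34561 / 1000000000) := by
    norm_num [pI, LC5]
  have k6 : (927 / 1250 : ℝ) * pI 0 LC6 (927 / 1250) ≤ -(1431 / 500000000) := by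
    norm_num [pI, LC6]
  have j1 := mul_le_mul_of_nonneg_left k1 hε
  have j2 := mul_le_mul_of_nonneg_left k2 (pow_nonneg hε 2)
  have j3 := mul_le_mul_of_nonneg_left k3 (pow_nonneg hε 3)
  have j4 := mul_le_mul_of_nonneg_left k4 (pow_nonneg hε 4)
  have j5 := mul_le_mul_of_nonneg_left k5 (pow_nonneg hε 5)
  have j6 := mul_le_mul_of_nonneg_left k6 (pow_nonneg hε 6)
  unfold IAr
  linarith

theorem regA' {ε : ℝ} (e0 : 1 / 2 ≤ ε) (e1 : ε ≤ 9 / 8) (hT : S_TF2)
    (hint : IntegrableOn (fun x => |cf ε x| ^ 3 / x ^ 2) (Ioi (12 / 5 : ℝ))) :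
    zt ε ^ 3 * ∫ x in (12 / 5 : ℝ)..Real.pi, |cf ε x| ^ 3 / x ^ 2 ≤ IAr ε := by
  have hε : 0 < ε := by linarith
  obtain ⟨hz, hA, -⟩ := hT ε hε
  have hp1 : (3.14159 : ℝ) < Real.pi := by
    have := Real.pi_gt_d6
    linarith
  have hp2 : Real.pi < 3.1416 := by
    have := Real.pi_lt_d6
    linarith
  have hle : (12 / 5 : ℝ) ≤ Real.pi := by
    norm_num at hp1
    linarith
  rw [← intervalIntegral.integral_const_mul]
  have hcont : Continuous (fun x : ℝ => AA ε (31416 / 10000 - x) ^ 3 * wA (31416 / 10000 - x)) := by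
    unfold AA a0 a1 a2 wA
    fun_prop
  have h1 : ∫ x in (12 / 5 : ℝ)..Real.pi, zt ε ^ 3 * (|cf ε x| ^ 3 / x ^ 2) ≤
      ∫ x in (12 / 5 : ℝ)..Real.pi, AA ε (31416 / 10000 - x) ^ 3 * wA (31416 / 10000 - x) := by
    refine intervalIntegral.integral_mono_on hle ?_ (hcont.intervalIntegrable _ _) ?_
    · refine IntervalIntegrable.const_mul ?_ _
      rw [intervalIntegrable_iff_integrableOn_Ioc_of_le hle]
      exact hint.mono_set Ioc_subset_Ioi_self
    · intro x hx
      have hx0 : 0 < x := by linarith [hx.1]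
      obtain ⟨-, -, -, a3⟩ := regA_pt hx.1 hx.2
      have h2 := regA_pt' e0 e1 hT hx.1 hx.2
      have h3 : 0 ≤ zt ε * |cf ε x| := by positivity
      have h4 : (zt ε * |cf ε x|) ^ 3 ≤ AA ε (31416 / 10000 - x) ^ 3 := pow_le_pow_left₀ h3 h2 3
      have h5 : zt ε ^ 3 * (|cf ε x| ^ 3 / x ^ 2) = (zt ε * |cf ε x|) ^ 3 * (1 / x ^ 2) := by
        ring
      rw [h5]
      exact mul_le_mul h4 a3 (by positivity) ((pow_nonneg h3 3).trans h4)
  refine h1.trans ?_
  have h2 : ∫ x in (12 / 5 : ℝ)..Real.pi, AA ε (31416 / 10000 - x) ^ 3 *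
        wA (31416 / 10000 - x) ≤
      ∫ x in (12 / 5 : ℝ)..(31416 / 10000), AA ε (31416 / 10000 - x) ^ 3 *
        wA (31416 / 10000 - x) := by
    refine intervalIntegral.integral_mono_interval le_rfl hle ?_ ?_ (hcont.intervalIntegrable _ _)
    · norm_num at hp2 ⊢
      exact hp2.le
    · refine (ae_restrict_iff' measurableSet_Ioc).2 (Eventually.of_forall fun x hx => ?_)
      have t0 : 0 ≤ 31416 / 10000 - x := by linarith [hx.2]
      have t1 : 31416 / 10000 - x ≤ 927 / 1250 := by linarith [hx.1]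
      have w0 := wA_nn t0
      have a0' : 0 ≤ AA ε (31416 / 10000 - x) := by
        have h := cA0 e0 e1 t0 t1
        unfold AA a0 a1 a2
        exact h
      change 0 ≤ AA ε (31416 / 10000 - x) ^ 3 * wA (31416 / 10000 - x)
      positivity
  refine h2.trans ?_
  have h3 := intervalIntegral.integral_comp_sub_left (a := (12 / 5 : ℝ)) (b := 31416 / 10000)
    (fun t : ℝ => AA ε t ^ 3 * wA t) (31416 / 10000)
  rw [h3, sub_self, show (31416 / 10000 : ℝ) - 12 / 5 = 927 / 1250 by norm_num]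
  exact regA_int' hε.le

/-! ## The region `[π, 2π]` -/

theorem sin_sub_nn {x : ℝ} (h0 : Real.pi ≤ x) (h1 : x ≤ 13 / 3) :
    0 ≤ Real.sin x - x * Real.cos x := by
  have hp1 : (3.14159 : ℝ) < Real.pi := by
    have := Real.pi_gt_d6
    linarith
  have hp1' : (314159 / 100000 : ℝ) < Real.pi := by
    norm_num at hp1 ⊢
    exact hp1
  obtain ⟨s, hs⟩ : ∃ s : ℝ, s = x - Real.pi := ⟨_, rfl⟩
  have hxs : x = s + Real.pi := by linarith
  have hs0 : 0 ≤ s := by linarith
  have hs1 : s ≤ 6 / 5 := by linarith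
  rw [hxs, Real.sin_add_pi, Real.cos_add_pi]
  have c1 : Real.cos (6 / 5) ≤ Real.cos s :=
    Real.cos_le_cos_of_nonneg_of_le_pi hs0 (by linarith) hs1
  have c2 := cos6 (y := 6 / 5) (by norm_num)
  have c3 : (36 / 100 : ℝ) ≤ Real.cos s := by
    refine le_trans ?_ (c2.trans c1)
    norm_num
  have c4 := Real.sin_le_one s
  have c5 : 314159 / 100000 * (36 / 100) ≤ (s + Real.pi) * Real.cos s :=
    mul_le_mul (by linarith) c3 (by norm_num) (by linarith)
  linarith

theorem ck_nn' {ε x : ℝ} (hε : 0 ≤ ε) (h0 : Real.pi ≤ x) (h1 : x ≤ 13 / 3) : 0 ≤ ck ε x := by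
  have hp := Real.pi_pos
  have hp1 : (3.14159 : ℝ) < Real.pi := by
    have := Real.pi_gt_d6
    linarith
  have hp1' : (314159 / 100000 : ℝ) < Real.pi := by
    norm_num at hp1 ⊢
    exact hp1
  have hx : 0 < x := lt_of_lt_of_le hp h0
  obtain ⟨E, hE⟩ : ∃ E : ℝ, E = Real.exp (-(ε * (Real.pi / x) ^ 2)) := ⟨_, rfl⟩
  have hE0 : 0 ≤ E := by
    rw [hE]
    exact (Real.exp_pos _).le
  have h2 : E * ∫ u in (0 : ℝ)..1, u ^ 2 * Real.sinc (u * x) ≤ ck ε x := by
    rw [← intervalIntegral.integral_const_mul]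
    unfold ck
    refine intervalIntegral.integral_mono_on zero_le_one
      (Continuous.intervalIntegrable (by have := Real.continuous_sinc; fun_prop) _ _)
      (Continuous.intervalIntegrable (by have := Real.continuous_sinc; fun_prop) _ _)
      fun u hu => ?_
    have hk : 0 ≤ (Real.exp (-(ε * u ^ 2)) - E) * Real.sinc (u * x) := by
      rcases le_total (u * x) Real.pi with h3 | h3
      · have a1 := sinc_nn (mul_nonneg hu.1 hx.le) h3
        have a2 : E ≤ Real.exp (-(ε * u ^ 2)) := by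
          rw [hE, Real.exp_le_exp]
          have a3 : u ≤ Real.pi / x := by
            rw [le_div_iff₀ hx]
            exact h3
          have a4 : u ^ 2 ≤ (Real.pi / x) ^ 2 := pow_le_pow_left₀ hu.1 a3 2
          have a5 := mul_le_mul_of_nonneg_left a4 hε
          linarith
        exact mul_nonneg (by linarith) a1
      · have hux : u * x ≤ 13 / 3 := (mul_le_of_le_one_left hx.le hu.2).trans h1
        have hux0 : 0 < u * x := lt_of_lt_of_le hp h3
        have a1 : Real.sinc (u * x) ≤ 0 := by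
          rw [Real.sinc_of_ne_zero hux0.ne']
          refine div_nonpos_of_nonpos_of_nonneg ?_ hux0.le
          have b1 : Real.sin (u * x) = -Real.sin (u * x - Real.pi) := by
            rw [Real.sin_sub_pi, neg_neg]
          rw [b1]
          have b2 := Real.sin_nonneg_of_nonneg_of_le_pi (x := u * x - Real.pi) (by linarith)
            (by linarith)
          linarith
        have a2 : Real.exp (-(ε * u ^ 2)) ≤ E := by
          rw [hE, Real.exp_le_exp]
          have a3 : Real.pi / x ≤ u := by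
            rw [div_le_iff₀ hx]
            exact h3
          have a4 : (Real.pi / x) ^ 2 ≤ u ^ 2 := pow_le_pow_left₀ (by positivity) a3 2
          have a5 := mul_le_mul_of_nonneg_left a4 hε
          linarith
        exact mul_nonneg_of_nonpos_of_nonpos (by linarith) a1
    have hk2 := mul_nonneg (sq_nonneg u) hk
    linarith
  rw [sinc_int hx] at h2
  refine le_trans ?_ h2
  exact mul_nonneg hE0 (div_nonneg (sin_sub_nn h0 h1) (by positivity))

/-- the better bound on `[π, 13/3]` -/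
theorem gB_dom1 {ε : ℝ} (hε : 0 < ε) (hT : S_TF2) {r : ℝ}
    (hr : 2 * ε * (1.07 * zt ε) ≤ r) {x : ℝ} (h0 : Real.pi ≤ x) (h1 : x ≤ 13 / 3) :
    zt ε ^ 3 * (|cf ε x| ^ 3 / x ^ 2) ≤ gB (Real.exp (-ε)) 0 x + gB 0 r x := by
  obtain ⟨hz, hA, -, -, hC, -⟩ := hT ε hε
  have hp := Real.pi_pos
  have hp1 : (3.14159 : ℝ) < Real.pi := by
    have := Real.pi_gt_d6
    linarith
  have hp1' : (314159 / 100000 : ℝ) < Real.pi := by
    norm_num at hp1 ⊢
    exact hp1
  have hx : 0 < x := lt_of_lt_of_le hp h0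
  have hE := (Real.exp_pos (-ε)).le
  have hck := ck_nn' hε.le h0 h1
  have hsin : Real.sin x ≤ 0 := by
    have b1 : Real.sin x = -Real.sin (x - Real.pi) := by
      rw [Real.sin_sub_pi, neg_neg]
    rw [b1]
    have b2 := Real.sin_nonneg_of_nonneg_of_le_pi (x := x - Real.pi) (by linarith)
      (by linarith)
    linarith
  obtain ⟨a, ha⟩ : ∃ a : ℝ, a = Real.exp (-ε) * (|Real.sin x| / x) := ⟨_, rfl⟩
  obtain ⟨b, hb⟩ : ∃ b : ℝ, b = r / x ^ 2 := ⟨_, rfl⟩
  have ha0 : 0 ≤ a := by rw [ha]; positivity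
  have h4 : 2 * ε * ck ε x ≤ b := by
    rw [hb, le_div_iff₀ (by positivity)]
    have h5 := hC x hx
    rw [abs_of_nonneg hck, le_div_iff₀ (by positivity)] at h5
    calc 2 * ε * ck ε x * x ^ 2 = 2 * ε * (ck ε x * x ^ 2) := by ring
      _ ≤ 2 * ε * (1.07 * zt ε) := mul_le_mul_of_nonneg_left h5 (by linarith)
      _ ≤ r := hr
  have hc0 : 0 ≤ 2 * ε * ck ε x := by positivity
  have hb0 : 0 ≤ b := hc0.trans h4
  have h2 : (zt ε * |cf ε x|) ^ 3 ≤ a ^ 3 + b ^ 3 := by
    have hm : zt ε * |cf ε x| = |zt ε * cf ε x| := by rw [abs_mul, abs_of_pos hz]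
    have hs : Real.exp (-ε) * Real.sinc x = -a := by
      rw [Real.sinc_of_ne_zero hx.ne', ha, abs_of_nonpos hsin]
      ring
    rw [hm, hA x, hs]
    have hcase : |-a + 2 * ε * ck ε x| ≤ a ∨ |-a + 2 * ε * ck ε x| ≤ b := by
      rcases le_total 0 (-a + 2 * ε * ck ε x) with h | h
      · right
        rw [abs_of_nonneg h]
        linarith
      · left
        rw [abs_of_nonpos h]
        linarith
    have a3 : 0 ≤ a ^ 3 := by positivity
    have b3 : 0 ≤ b ^ 3 := by positivity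
    rcases hcase with h | h
    · have := pow_le_pow_left₀ (abs_nonneg _) h 3
      linarith
    · have := pow_le_pow_left₀ (abs_nonneg _) h 3
      linarith
  have h5 : zt ε ^ 3 * (|cf ε x| ^ 3 / x ^ 2) = (zt ε * |cf ε x|) ^ 3 / x ^ 2 := by
    ring
  have h6 : gB (Real.exp (-ε)) 0 x + gB 0 r x = (a ^ 3 + b ^ 3) / x ^ 2 := by
    unfold gB
    rw [ha, hb]
    ring
  rw [h5, h6]
  exact div_le_div_of_nonneg_right h2 (by positivity)

theorem gB_split {e r x : ℝ} (he : 0 ≤ e) (hr : 0 ≤ r) (hx : 0 < x) :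
    gB e r x ≤ gB e 0 x + gB 0 r x +
      (3 * e ^ 2 * r * x⁻¹ ^ (4 + 2) + 3 * e * r ^ 2 * x⁻¹ ^ (5 + 2)) := by
  obtain ⟨y, hy⟩ : ∃ y : ℝ, y = x⁻¹ := ⟨_, rfl⟩
  have hy0 : 0 < y := by rw [hy]; positivity
  obtain ⟨s, hs⟩ : ∃ s : ℝ, s = |Real.sin x| := ⟨_, rfl⟩
  have hs0 : 0 ≤ s := by rw [hs]; exact abs_nonneg _
  have hs1 : s ≤ 1 := by rw [hs]; exact Real.abs_sin_le_one x
  have e1 : gB e r x = gB e 0 x + gB 0 r x +
      (3 * e ^ 2 * r * (s ^ 2 * y ^ 6) + 3 * e * r ^ 2 * (s * y ^ 7)) := by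
    unfold gB
    rw [hy, hs]
    field_simp
    ring
  rw [e1, ← hy]
  have hs2 : s ^ 2 ≤ 1 := by nlinarith
  have k1 : s ^ 2 * y ^ 6 ≤ 1 * y ^ 6 := mul_le_mul_of_nonneg_right hs2 (by positivity)
  have k2 : s * y ^ 7 ≤ 1 * y ^ 7 := mul_le_mul_of_nonneg_right hs1 (by positivity)
  have j1 := mul_le_mul_of_nonneg_left k1 (show 0 ≤ 3 * e ^ 2 * r by positivity)
  have j2 := mul_le_mul_of_nonneg_left k2 (show 0 ≤ 3 * e * r ^ 2 by positivity)
  have n1 : 4 + 2 = 6 := rfl
  have n2 : 5 + 2 = 7 := rfl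
  rw [n1, n2]
  linarith

theorem inv_int {A B : ℝ} (hA : 0 ≤ A) (hB : 0 ≤ B) :
    IntervalIntegrable (fun x : ℝ => A * x⁻¹ ^ (4 + 2) + B * x⁻¹ ^ (5 + 2)) volume (13 / 3)
      (2 * Real.pi) ∧
    ∫ x in (13 / 3 : ℝ)..(2 * Real.pi), (A * x⁻¹ ^ (4 + 2) + B * x⁻¹ ^ (5 + 2)) ≤
      A * (11049 / 100000000) + B * (2247 / 100000000) := by
  have hp1 : (3.14159 : ℝ) < Real.pi := by
    have := Real.pi_gt_d6
    linarith
  have hp1' : (314159 / 100000 : ℝ) < Real.pi := by
    norm_num at hp1 ⊢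
    exact hp1
  have hp2 : Real.pi < 3.1416 := by
    have := Real.pi_lt_d6
    linarith
  have hp2' : Real.pi < 31416 / 10000 := by
    norm_num at hp2 ⊢
    exact hp2
  have hle : (13 / 3 : ℝ) ≤ 2 * Real.pi := by linarith
  have hx0 : ∀ x ∈ uIcc (13 / 3 : ℝ) (2 * Real.pi), x ≠ 0 := by
    intro x hx
    rw [uIcc_of_le hle] at hx
    have := hx.1
    linarith
  have hii : IntervalIntegrable (fun x : ℝ => A * x⁻¹ ^ (4 + 2) + B * x⁻¹ ^ (5 + 2)) volume
      (13 / 3) (2 * Real.pi) := by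
    refine ContinuousOn.intervalIntegrable ?_
    have c : ContinuousOn (fun x : ℝ => x⁻¹) (uIcc (13 / 3 : ℝ) (2 * Real.pi)) :=
      continuousOn_id.inv₀ hx0
    exact ((c.pow _).const_smul A).add ((c.pow _).const_smul B)
  refine ⟨hii, ?_⟩
  have hd : ∀ x ∈ uIcc (13 / 3 : ℝ) (2 * Real.pi), HasDerivAt
      (fun x : ℝ => A * (-(1 / 5) * x⁻¹ ^ (4 + 1)) + B * (-(1 / 6) * x⁻¹ ^ (5 + 1)))
      (A * x⁻¹ ^ (4 + 2) + B * x⁻¹ ^ (5 + 2)) x := by
    intro x hx
    have h := (((dinv 4 (hx0 x hx)).const_mul (-(1 / 5))).const_mul A).add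
      (((dinv 5 (hx0 x hx)).const_mul (-(1 / 6))).const_mul B)
    refine h.congr_deriv ?_
    push_cast
    ring
  rw [intervalIntegral.integral_eq_sub_of_hasDerivAt hd hii]
  obtain ⟨y, hy⟩ : ∃ y : ℝ, y = (2 * Real.pi)⁻¹ := ⟨_, rfl⟩
  have hy1 : 159154 / 1000000 ≤ y := by
    rw [hy, le_inv_comm₀ (by norm_num) (by positivity)]
    have := Real.pi_lt_d6
    norm_num at this ⊢
    linarith
  rw [← hy]
  have k5 := pow_le_pow_left₀ (by norm_num) hy1 5
  have k6 := pow_le_pow_left₀ (by norm_num) hy1 6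
  have l5 : 1 / 5 * (13 / 3 : ℝ)⁻¹ ^ 5 - 1 / 5 * y ^ 5 ≤ 11049 / 100000000 := by
    have : 1 / 5 * (13 / 3 : ℝ)⁻¹ ^ 5 - 1 / 5 * (159154 / 1000000) ^ 5 ≤ 11049 / 100000000 := by
      norm_num
    linarith
  have l6 : 1 / 6 * (13 / 3 : ℝ)⁻¹ ^ 6 - 1 / 6 * y ^ 6 ≤ 2247 / 100000000 := by
    have : 1 / 6 * (13 / 3 : ℝ)⁻¹ ^ 6 - 1 / 6 * (159154 / 1000000) ^ 6 ≤ 2247 / 100000000 := by
      norm_num
    linarith
  have j5 := mul_le_mul_of_nonneg_left l5 hA
  have j6 := mul_le_mul_of_nonneg_left l6 hB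
  have n1 : 4 + 1 = 5 := rfl
  have n2 : 5 + 1 = 6 := rfl
  rw [n1, n2]
  linarith

theorem gB_cont {e r a b : ℝ} (ha : 0 < a) (hab : a ≤ b) :
    IntervalIntegrable (gB e r) volume a b := by
  refine ContinuousOn.intervalIntegrable ?_
  rw [uIcc_of_le hab]
  unfold gB
  have hx0 : ∀ x ∈ Icc a b, x ≠ 0 := fun x hx => (lt_of_lt_of_le ha hx.1).ne'
  have hx2 : ∀ x ∈ Icc a b, x ^ 2 ≠ 0 := fun x hx => pow_ne_zero 2 (hx0 x hx)
  have c1 : ContinuousOn (fun x : ℝ => |Real.sin x| / x) (Icc a b) :=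
    ContinuousOn.div (by fun_prop) continuousOn_id hx0
  have c2 : ContinuousOn (fun x : ℝ => r / x ^ 2) (Icc a b) :=
    ContinuousOn.div continuousOn_const (by fun_prop) hx2
  exact ContinuousOn.div (((c1.const_smul e).add c2).pow 3) (by fun_prop) hx2

theorem regB' {ε : ℝ} (hε : 0 < ε) (hT : S_TF2) {r : ℝ} (hr0 : 0 ≤ r)
    (hr : 2 * ε * (1.07 * zt ε) ≤ r)
    (hint : IntegrableOn (fun x => |cf ε x| ^ 3 / x ^ 2) (Ioi Real.pi)) :
    zt ε ^ 3 * ∫ x in Real.pi..(2 * Real.pi), |cf ε x| ^ 3 / x ^ 2 ≤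
      Real.exp (-ε) ^ 3 * (68537 / 100000000) + r ^ 3 * (4727 / 100000000) +
      (3 * Real.exp (-ε) ^ 2 * r * (11049 / 100000000) +
        3 * Real.exp (-ε) * r ^ 2 * (2247 / 100000000)) := by
  have hp := Real.pi_pos
  have hp1 : (3.14159 : ℝ) < Real.pi := by
    have := Real.pi_gt_d6
    linarith
  have hp1' : (314159 / 100000 : ℝ) < Real.pi := by
    norm_num at hp1 ⊢
    exact hp1
  have hp2 : Real.pi < 3.1416 := by
    have := Real.pi_lt_d6
    linarith
  have hp2' : Real.pi < 31416 / 10000 := by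
    norm_num at hp2 ⊢
    exact hp2
  have hle1 : Real.pi ≤ 13 / 3 := by linarith
  have hle2 : (13 / 3 : ℝ) ≤ 2 * Real.pi := by linarith
  have hle : Real.pi ≤ 2 * Real.pi := by linarith
  have hE := (Real.exp_pos (-ε)).le
  obtain ⟨e, he⟩ : ∃ e : ℝ, e = Real.exp (-ε) := ⟨_, rfl⟩
  have he0 : 0 ≤ e := by rw [he]; exact hE
  rw [← intervalIntegral.integral_const_mul]
  have i1 : IntervalIntegrable (fun x => zt ε ^ 3 * (|cf ε x| ^ 3 / x ^ 2)) volume Real.pi
      (13 / 3) := by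
    refine IntervalIntegrable.const_mul ?_ _
    rw [intervalIntegrable_iff_integrableOn_Ioc_of_le hle1]
    exact hint.mono_set Ioc_subset_Ioi_self
  have i2 : IntervalIntegrable (fun x => zt ε ^ 3 * (|cf ε x| ^ 3 / x ^ 2)) volume (13 / 3)
      (2 * Real.pi) := by
    refine IntervalIntegrable.const_mul ?_ _
    rw [intervalIntegrable_iff_integrableOn_Ioc_of_le hle2]
    exact (hint.mono_set (Ioi_subset_Ioi hle1)).mono_set Ioc_subset_Ioi_self
  rw [← intervalIntegral.integral_add_adjacent_intervals i1 i2]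
  have g1 : IntervalIntegrable (fun x => gB e 0 x + gB 0 r x) volume Real.pi (13 / 3) :=
    (gB_cont hp hle1).add (gB_cont hp hle1)
  have g2 : IntervalIntegrable (fun x => gB e 0 x + gB 0 r x) volume (13 / 3) (2 * Real.pi) :=
    (gB_cont (by norm_num) hle2).add (gB_cont (by norm_num) hle2)
  obtain ⟨q1, q2⟩ := inv_int (A := 3 * e ^ 2 * r) (B := 3 * e * r ^ 2) (by positivity)
    (by positivity)
  have k1 : ∫ x in Real.pi..(13 / 3), zt ε ^ 3 * (|cf ε x| ^ 3 / x ^ 2) ≤
      ∫ x in Real.pi..(13 / 3), (gB e 0 x + gB 0 r x) := by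
    refine intervalIntegral.integral_mono_on hle1 i1 g1 fun x hx => ?_
    rw [he]
    exact gB_dom1 hε hT hr hx.1 hx.2
  have k2 : ∫ x in (13 / 3 : ℝ)..(2 * Real.pi), zt ε ^ 3 * (|cf ε x| ^ 3 / x ^ 2) ≤
      ∫ x in (13 / 3 : ℝ)..(2 * Real.pi), ((gB e 0 x + gB 0 r x) +
        (3 * e ^ 2 * r * x⁻¹ ^ (4 + 2) + 3 * e * r ^ 2 * x⁻¹ ^ (5 + 2))) := by
    refine intervalIntegral.integral_mono_on hle2 i2 (g2.add q1) fun x hx => ?_
    have hx0 : 0 < x := by linarith [hx.1]
    refine (gB_dom hε hT hr hx0).trans ?_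
    rw [← he]
    exact gB_split he0 hr0 hx0
  rw [intervalIntegral.integral_add g2 q1] at k2
  have k3 : (∫ x in Real.pi..(13 / 3), (gB e 0 x + gB 0 r x)) +
      (∫ x in (13 / 3 : ℝ)..(2 * Real.pi), (gB e 0 x + gB 0 r x)) =
      (∫ x in Real.pi..(2 * Real.pi), gB e 0 x) + ∫ x in Real.pi..(2 * Real.pi), gB 0 r x := by
    rw [intervalIntegral.integral_add_adjacent_intervals g1 g2,
      intervalIntegral.integral_add (gB_cont hp hle) (gB_cont hp hle)]
  have m1 := gB_int' (e := e) (r := 0) he0 le_rfl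
  have m2 := gB_int' (e := 0) (r := r) le_rfl hr0
  rw [← he]
  have z1 : e ^ 3 * (68537 / 100000000) + 3 * e ^ 2 * 0 * (20005 / 100000000) +
        3 * e * (0 : ℝ) ^ 2 * (7367 / 100000000) + (0 : ℝ) ^ 3 * (4727 / 100000000) =
      e ^ 3 * (68537 / 100000000) := by ring
  have z2 : (0 : ℝ) ^ 3 * (68537 / 100000000) + 3 * (0 : ℝ) ^ 2 * r * (20005 / 100000000) +
        3 * (0 : ℝ) * r ^ 2 * (7367 / 100000000) + r ^ 3 * (4727 / 100000000) =
      r ^ 3 * (4727 / 100000000) := by ring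
  rw [z1] at m1
  rw [z2] at m2
  linarith

/-! ## Conclusion -/

theorem tk7 : S_TK7 := by
  intro hT _ ε hε0 hε1
  have hε : 0 < ε := by linarith
  have hz := (hT ε hε).1
  have hclaim : (0 : ℝ) ≤ 0.0017 + 0.0032 * ε ^ 2 := by positivity
  unfold KK3
  by_cases hint : IntegrableOn (fun x => |cf ε x| ^ 3 / x ^ 2) (Ioi (12 / 5 : ℝ))
  swap
  · rw [integral_undef hint]
    exact hclaim
  have hp1 : (3.14159 : ℝ) < Real.pi := by
    have := Real.pi_gt_d6
    linarith
  have hp := Real.pi_pos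
  have hle : (12 / 5 : ℝ) ≤ Real.pi := by
    norm_num at hp1
    linarith
  have hle2 : Real.pi ≤ 2 * Real.pi := by linarith
  have hint2 := hint.mono_set (Ioi_subset_Ioi hle)
  have hint3 := hint2.mono_set (Ioi_subset_Ioi hle2)
  have hE := (Real.exp_pos (-ε)).le
  have hzup := z_up hε0 hε1
  have hzlo := z_lo hε0 hε1
  obtain ⟨r, hr⟩ : ∃ r : ℝ, r = 107 / 50 * ε * zU ε := ⟨_, rfl⟩
  have hzp : 0 < zU ε := lt_of_lt_of_le hz hzup
  have hr0 : 0 ≤ r := by
    rw [hr]
    positivity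
  have hr1 : 2 * ε * (1.07 * zt ε) ≤ r := by
    rw [hr]
    have := mul_le_mul_of_nonneg_left hzup (show 0 ≤ 107 / 50 * ε by positivity)
    norm_num at this ⊢
    linarith
  -- the three regions
  have A := regA' hε0 hε1 hT hint
  have B := regB' hε hT hr0 hr1 hint2
  have D : zt ε ^ 3 * ∫ x in Ioi (2 * Real.pi), |cf ε x| ^ 3 / x ^ 2 ≤
      Real.exp (-ε) ^ 3 * (8021 / 100000000) + 3 * Real.exp (-ε) ^ 2 * r * (1022 / 100000000) +
        3 * Real.exp (-ε) * r ^ 2 * (271 / 100000000) + r ^ 3 * (37 / 100000000) := by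
    rw [← MeasureTheory.integral_const_mul]
    exact gB_tail hE hr0 (fun x hx => gB_dom hε hT hr1 hx) (hint3.const_mul _)
  have hsplit : ∫ x in Ioi (12 / 5 : ℝ), |cf ε x| ^ 3 / x ^ 2 =
      (∫ x in (12 / 5 : ℝ)..Real.pi, |cf ε x| ^ 3 / x ^ 2) +
      ((∫ x in Real.pi..(2 * Real.pi), |cf ε x| ^ 3 / x ^ 2) +
        ∫ x in Ioi (2 * Real.pi), |cf ε x| ^ 3 / x ^ 2) := by
    rw [intervalIntegral.integral_interval_add_Ioi hint2 hint3,
      intervalIntegral.integral_interval_add_Ioi hint hint2]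
  -- the polynomial inequality
  obtain ⟨e, he⟩ : ∃ e : ℝ, e = Real.exp (-ε) := ⟨_, rfl⟩
  have heP : e ≤ pP ε := by
    rw [he]
    exact p_up hε0 hε1
  have he0 : 0 ≤ e := by rw [he]; exact hE
  rw [← he] at B D
  have hF := cF hε0 hε1
  have fP : ((47891 / 50000) - (40693 / 50000) * ε + (5619 / 25000) * ε ^ 2) = pP ε := rfl
  have fL : ((19839 / 20000) - (30229 / 100000) * ε + (1127 / 20000) * ε ^ 2) = zL ε := rfl
  have fU : ((99461 / 100000) - (7681 / 25000) * ε + (379 / 6250) * ε ^ 2) = zU ε := rfl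
  have fI : ((81627 / 125000000) + (47931 / 62500000) * ε + (125533 / 500000000) * ε ^ 2 - (4887 / 100000000) * ε ^ 3 - (108679 / 1000000000) * ε ^ 4 + (34561 / 1000000000) * ε ^ 5 - (1431 / 500000000) * ε ^ 6) = IAr ε := rfl
  rw [fP, fL, fU, fI, ← hr] at hF
  obtain ⟨P, hP⟩ : ∃ P : ℝ, P = pP ε := ⟨_, rfl⟩
  obtain ⟨m, hm⟩ : ∃ m : ℝ, m = zL ε := ⟨_, rfl⟩
  obtain ⟨J, hJ⟩ : ∃ J : ℝ, J = IAr ε := ⟨_, rfl⟩
  rw [← hP] at heP
  rw [← hP, ← hm, ← hJ] at hF
  rw [← hm] at hzlo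
  rw [← hJ] at A
  have hm0 : 0 ≤ m := by
    rw [hm]
    unfold zL
    nlinarith [sq_nonneg ε]
  have hm3 : m ^ 3 * (17 / 10000 + 32 / 10000 * ε ^ 2) ≤
      zt ε ^ 3 * (17 / 10000 + 32 / 10000 * ε ^ 2) :=
    mul_le_mul_of_nonneg_right (pow_le_pow_left₀ hm0 hzlo 3) (by positivity)
  have p3 := mul_le_mul_of_nonneg_right (pow_le_pow_left₀ he0 heP 3)
    (show (0 : ℝ) ≤ 76558 / 100000000 by norm_num)
  have p2 := mul_le_mul_of_nonneg_right (pow_le_pow_left₀ he0 heP 2)
    (show 0 ≤ 3 * r * (12071 / 100000000) by positivity)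
  have p1 := mul_le_mul_of_nonneg_right heP
    (show 0 ≤ 3 * r ^ 2 * (2518 / 100000000) by positivity)
  have hfin : zt ε ^ 3 * (∫ x in Ioi (12 / 5 : ℝ), |cf ε x| ^ 3 / x ^ 2) ≤
      zt ε ^ 3 * (17 / 10000 + 32 / 10000 * ε ^ 2) := by
    rw [hsplit, mul_add, mul_add]
    linarith
  have h3 := le_of_mul_le_mul_left hfin (pow_pos hz 3)
  norm_num at h3 ⊢
  linarith

end Pool.Agent.H187.TK7
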