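import Pool.Agent.H770.GS.UQ

/-!
# UQ1: window integrals of kernels of the class `P ρ`
-/

set_option autoImplicit false

open MeasureTheory Set intervalIntegral Filter Topology

namespace Pool.Agent.H187.UQ1

open Pool.Agent.H770.GS

theorem win : S_win := by
  intro ρ t k hk ht0 ht
  have ii : ∀ a b, IntervalIntegrable k volume a b := fun a b => hk.cont.intervalIntegrable a b
  refine ⟨?_, ?_, ?_⟩
  · have hF : Continuous (fun x => ∫ u in (0 : ℝ)..x, k u) :=
      intervalIntegral.continuous_primitive ii 0
    have e : (fun v => ∫ u in (v - t)..(v + t), k u) =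
        fun v => (∫ u in (0 : ℝ)..(v + t), k u) - ∫ u in (0 : ℝ)..(v - t), k u := by
      funext v
      exact (intervalIntegral.integral_interval_sub_left (ii _ _) (ii _ _)).symm
    rw [e]
    exact (hF.comp (by fun_prop : Continuous fun v : ℝ => v + t)).sub
      (hF.comp (by fun_prop : Continuous fun v : ℝ => v - t))
  · intro v
    have h1 : ∫ u in (v - t)..(v + t), k (-u) = ∫ u in (-(v + t))..(-(v - t)), k u :=
      intervalIntegral.integral_comp_neg (fun x => k x)
    have h2 : ∫ u in (v - t)..(v + t), k (-u) = -∫ u in (v - t)..(v + t), k u := by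
      rw [← intervalIntegral.integral_neg]
      exact intervalIntegral.integral_congr fun x _ => hk.odd x
    have h3 : -v - t = -(v + t) := by ring
    have h4 : -v + t = -(v - t) := by ring
    change ∫ u in (-v - t)..(-v + t), k u = -∫ u in (v - t)..(v + t), k u
    rw [h3, h4, ← h1, h2]
  · intro v v' hv hvv hs
    exact Kt hk ht0 ht hv hvv hs

end Pool.Agent.H187.UQ1
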